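import Pool.Agent.R477.XQ.Overlap
import Pool.Agent.R481.TraceErg
import Pool.Agent.TH463.UQ.Trace
import Pool.Agent.R203.SC.Tors

/-!
# Common positive definite parts of the restrictions of tracial states to the translations
-/

set_option autoImplicit false

open MeasureTheory Filter Topology Finset
open scoped ComplexOrder ComplexConjugate ENNReal NNReal

namespace Pool.Agent.L7h48.TR

open Pool.Agent.TH654.FC Pool.Agent.W763.Tr Pool.Agent.TH463.UQ Pool.Agent.R481.TraceErg
open Pool.Agent.R477.XQ (Ov main_iff)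

section Meas

/-- a positive definite sequence which vanishes at zero is zero -/
lemma pd_zero {f : ℤ → ℂ} (h0 : f 0 = 0)
    (hf : ∀ (N : ℕ) (a : ℕ → ℂ), 0 ≤ ∑ j ∈ range N, ∑ k ∈ range N, star (a k) * a j * f (j - k))
    (n : ℤ) : f n = 0 := by
  have key : ∀ n : ℕ, 1 ≤ n → ∀ t : ℂ, 0 ≤ t * f n + star t * f (-n) := by
    intro n hn t
    have h1 := hf (n + 1) (fun k => if k = 0 then 1 else if k = n then t else 0)
    have e : ∀ F : ℕ → ℂ, ∑ k ∈ range (n + 1), (if k = 0 then (1 : ℂ) else if k = n then t else 0) *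
        F k = F 0 + t * F n := by
      intro F
      rw [← sum_subset (s₁ := ({0, n} : Finset ℕ)) (by
        intro k hk
        simp only [mem_insert, mem_singleton] at hk
        rw [mem_range]
        omega) (fun k _ hk => by
          simp only [mem_insert, mem_singleton, not_or] at hk
          rw [if_neg hk.1, if_neg hk.2, zero_mul])]
      rw [sum_pair (by omega)]
      rw [if_pos rfl, if_neg (by omega), if_pos rfl, one_mul]
    have e' : ∀ F : ℕ → ℂ, ∑ k ∈ range (n + 1),
        star (if k = 0 then (1 : ℂ) else if k = n then t else 0) * F k = F 0 + star t * F n := by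
      intro F
      rw [← sum_subset (s₁ := ({0, n} : Finset ℕ)) (by
        intro k hk
        simp only [mem_insert, mem_singleton] at hk
        rw [mem_range]
        omega) (fun k _ hk => by
          simp only [mem_insert, mem_singleton, not_or] at hk
          rw [if_neg hk.1, if_neg hk.2, star_zero, zero_mul])]
      rw [sum_pair (by omega)]
      rw [if_pos rfl, if_neg (by omega), if_pos rfl, star_one, one_mul]
    have e2 : ∑ j ∈ range (n + 1), ∑ k ∈ range (n + 1),
        star (if k = 0 then (1 : ℂ) else if k = n then t else 0) *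
          (if j = 0 then (1 : ℂ) else if j = n then t else 0) * f (j - k) =
        t * f n + star t * f (-n) := by
      have e3 : ∀ j ∈ range (n + 1), ∑ k ∈ range (n + 1),
          star (if k = 0 then (1 : ℂ) else if k = n then t else 0) *
          (if j = 0 then (1 : ℂ) else if j = n then t else 0) * f (j - k) =
          (if j = 0 then (1 : ℂ) else if j = n then t else 0) *
            (f (j - (0 : ℕ)) + star t * f (j - n)) := by
        intro j _
        rw [← e' (fun k => f (j - k)), mul_sum]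
        exact sum_congr rfl fun k _ => by ring
      rw [sum_congr rfl e3, e (fun j => f (j - (0 : ℕ)) + star t * f (j - n))]
      simp only [Nat.cast_zero, sub_zero, zero_sub, sub_self, h0, mul_zero, add_zero, zero_add]
      ring
    rwa [e2] at h1
  have key2 : ∀ n : ℕ, 1 ≤ n → f n = 0 ∧ f (-n) = 0 := by
    intro n hn
    have h1 : ∀ t : ℂ, t * f n + star t * f (-n) = 0 := by
      intro t
      have h2 := key n hn t
      have h3 := key n hn (-t)
      have h4 : -t * f n + star (-t) * f (-n) = -(t * f n + star t * f (-n)) := by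
        rw [star_neg]; ring
      rw [h4] at h3
      exact le_antisymm (neg_nonneg.1 h3) h2
    have h2 := h1 1
    have h3 := h1 Complex.I
    rw [star_one, one_mul, one_mul] at h2
    have h4 : star Complex.I = -Complex.I := Complex.conj_I
    rw [h4] at h3
    have h5 : Complex.I * (f n - f (-n)) = 0 := by linear_combination h3
    have h6 := (mul_eq_zero.1 h5).resolve_left Complex.I_ne_zero
    constructor
    · linear_combination (h2 + h6) / 2
    · linear_combination (h2 - h6) / 2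
  rcases lt_trichotomy n 0 with h | h | h
  · obtain ⟨m, hm⟩ := Int.exists_eq_neg_ofNat h.le
    subst hm
    exact (key2 m (by omega)).2
  · rw [h, h0]
  · obtain ⟨m, rfl⟩ := Int.eq_ofNat_of_zero_le h.le
    exact (key2 m (by omega)).1

/-- Herglotz' theorem for finite measures -/
lemma herglotz_fin {f : ℤ → ℂ} {c : ℝ} (h0 : f 0 = c)
    (hf : ∀ (N : ℕ) (a : ℕ → ℂ), 0 ≤ ∑ j ∈ range N, ∑ k ∈ range N, star (a k) * a j * f (j - k)) :
    ∃ ν : Measure UnitAddCircle, IsFiniteMeasure ν ∧ ∀ n : ℤ, ∫ x, (fourier n x : ℂ) ∂ν = f n := by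
  have hc : 0 ≤ c := by
    have h1 := hf 1 (fun _ => 1)
    simp only [range_one, sum_singleton, star_one, one_mul, sub_self, h0] at h1
    exact_mod_cast h1
  rcases hc.eq_or_lt with hc | hc
  · refine ⟨0, inferInstance, fun n => ?_⟩
    rw [integral_zero_measure, pd_zero (by rw [h0, ← hc]; simp) hf]
  · have hcc : (c : ℂ) ≠ 0 := by exact_mod_cast hc.ne'
    obtain ⟨ν, hν, h1⟩ := herglotz (c := fun n => (c : ℂ)⁻¹ * f n) (by rw [h0, inv_mul_cancel₀ hcc])
      (fun N a => by
        have h2 : ∑ j ∈ range N, ∑ k ∈ range N, star (a k) * a j * ((c : ℂ)⁻¹ * f (j - k)) =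
            (c : ℂ)⁻¹ * ∑ j ∈ range N, ∑ k ∈ range N, star (a k) * a j * f (j - k) := by
          rw [mul_sum]
          refine sum_congr rfl fun j _ => ?_
          rw [mul_sum]
          exact sum_congr rfl fun k _ => by ring
        rw [h2]
        refine mul_nonneg ?_ (hf N a)
        rw [← Complex.ofReal_inv]
        exact_mod_cast (inv_pos.2 hc).le)
    refine ⟨ENNReal.ofReal c • ν, ⟨by
      rw [Measure.smul_apply, smul_eq_mul]
      exact ENNReal.mul_lt_top ENNReal.ofReal_lt_top (measure_lt_top _ _)⟩, fun n => ?_⟩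
    rw [integral_smul_measure, h1, ENNReal.toReal_ofReal hc.le, Complex.real_smul, ← mul_assoc,
      mul_inv_cancel₀ hcc, one_mul]

/-- comparison of measures by their coefficients -/
lemma le_of_pd {ν ρ : Measure UnitAddCircle} [IsFiniteMeasure ν] [IsFiniteMeasure ρ] {c : ℝ}
    {f : ℤ → ℂ} (hc : f 0 = c)
    (h : ∀ n, f n = ∫ x, (fourier n x : ℂ) ∂ρ - ∫ x, (fourier n x : ℂ) ∂ν)
    (hf : ∀ (N : ℕ) (a : ℕ → ℂ), 0 ≤ ∑ j ∈ range N, ∑ k ∈ range N, star (a k) * a j * f (j - k)) :
    ∃ κ : Measure UnitAddCircle, IsFiniteMeasure κ ∧ ρ = κ + ν := by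
  obtain ⟨κ, hκ, h1⟩ := herglotz_fin hc hf
  refine ⟨κ, hκ, ?_⟩
  refine Pool.Agent.R202.ext_fourier fun m => ?_
  have hi : ∀ (σ : Measure UnitAddCircle) [IsFiniteMeasure σ],
      Integrable (fun x : UnitAddCircle => (fourier m x : ℂ)) σ := fun σ _ =>
    (by fun_prop : Continuous (fun x : UnitAddCircle =>
      (fourier m x : ℂ))).integrable_of_hasCompactSupport (HasCompactSupport.of_compactSpace _)
  rw [integral_add_measure (hi κ) (hi ν), h1, h]
  ring

end Meas

section Grp

variable {G : Subgroup (Equiv.Perm ℚ)} {τ τ' : ℤ → G} {φ ψ : G → ℂ} {S6 S6' : G}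
  {μ ν : Measure UnitAddCircle}

lemma pd_seq {H : Type} [Group H] {f : H → ℂ} (hf : PD f) (e : H) (N : ℕ) (a : ℕ → ℂ) :
    0 ≤ ∑ j ∈ range N, ∑ k ∈ range N, star (a k) * a j * f (e ^ ((j : ℤ) - k)) := by
  refine le_of_le_of_eq (hf.family (range N) (fun j => e ^ (j : ℤ)) a) ?_
  refine sum_congr rfl fun j _ => sum_congr rfl fun k _ => ?_
  rw [← zpow_neg, ← zpow_add]
  congr 3
  ring

/-- the translation by `1 / 6 ^ k` -/
lemma exists_root (D : Data G τ φ S6 μ) (k : ℕ) :
    ∃ e : G, ∀ x : ℚ, (e : Equiv.Perm ℚ) x = x + 1 / 6 ^ k := by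
  refine ⟨(S6 ^ k)⁻¹ * τ 1 * S6 ^ k, fun x => ?_⟩
  rw [Subgroup.coe_mul, Equiv.Perm.mul_apply, Subgroup.coe_mul, Equiv.Perm.mul_apply,
    Subgroup.coe_inv, Equiv.Perm.inv_eq_iff_eq, D.hτ, pow_six S6 D.hS6, pow_six S6 D.hS6]
  field_simp
  push_cast
  ring

/-- the values on the powers of the translation by `1 / 6 ^ k` -/
lemma val_root (D : Data G τ φ S6 μ) {e : G} {k : ℕ}
    (he : ∀ x : ℚ, (e : Equiv.Perm ℚ) x = x + 1 / 6 ^ k) (n a : ℤ) :
    φ ((e ^ n) ^ a) = ∫ x, (fourier n (a • x) : ℂ) ∂μ := by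
  have h1 : ∀ x : ℚ, (((e ^ n) ^ a : G) : Equiv.Perm ℚ) x = x + ((a * n : ℤ) : ℚ) / 6 ^ k := by
    intro x
    rw [← zpow_mul, Pool.Agent.R481.TraceFS.zpow_apply he]
    push_cast
    ring
  rw [phi_trans D.hτ D.hcl S6 D.hS6 _ _ k h1, ← D.hμ]
  refine integral_congr_ae (Eventually.of_forall fun x => ?_)
  simp only
  rw [fourier_apply, fourier_apply, smul_smul, mul_comm]

/-- a common part gives an overlap of the measures -/
lemma ov_of_common (D : Data G τ φ S6 μ) (D' : Data G τ' ψ S6' ν) {A : Subgroup G} {e : A} {k : ℕ}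
    (he : ∀ x : ℚ, ((e : G) : Equiv.Perm ℚ) x = x + 1 / 6 ^ k) {a b : ℤ} {c : ℝ≥0} {η : A → ℂ}
    (h1 : η 1 = ((c : ℝ) : ℂ)) (hη : PD η) {χ : A →* Circle}
    (hφ : PD (fun h : A => φ ((h : G) ^ a) - η h))
    (hψ : PD (fun h : A => (χ h : ℂ) * ψ ((h : G) ^ b) - η h)) {θ : UnitAddCircle}
    (hθ : AddCircle.toCircle θ = χ e) : Ov c a b μ ν θ := by
  have := D.prob
  have := D'.prob
  have hma : Measurable fun x : UnitAddCircle => a • x := (continuous_zsmul a).measurable
  have hmb : Measurable fun x : UnitAddCircle => b • x + θ := by fun_prop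
  obtain ⟨lam, hlam, hl⟩ := herglotz_fin (f := fun n => η (e ^ n)) (c := c)
    (by simp only [zpow_zero]; exact h1) (fun N w => pd_seq hη e N w)
  set μ1 := μ.map fun x : UnitAddCircle => a • x with hμ1
  set ν1 := ν.map fun x : UnitAddCircle => b • x + θ with hν1
  have i1 : IsProbabilityMeasure μ1 := Measure.isProbabilityMeasure_map hma.aemeasurable
  have i2 : IsProbabilityMeasure ν1 := Measure.isProbabilityMeasure_map hmb.aemeasurable
  have c1 : ∀ n : ℤ, ∫ x, (fourier n x : ℂ) ∂μ1 = φ (((e ^ n : A) : G) ^ a) := by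
    intro n
    rw [hμ1, integral_map hma.aemeasurable (Continuous.aestronglyMeasurable (by fun_prop)),
      Subgroup.coe_zpow, val_root D he]
  have c2 : ∀ n : ℤ, ∫ x, (fourier n x : ℂ) ∂ν1 = (χ (e ^ n) : ℂ) * ψ (((e ^ n : A) : G) ^ b) := by
    intro n
    rw [hν1, integral_map hmb.aemeasurable (Continuous.aestronglyMeasurable (by fun_prop)),
      Subgroup.coe_zpow, val_root D' he, map_zpow, ← hθ, ← integral_const_mul]
    refine integral_congr_ae (Eventually.of_forall fun x => ?_)
    simp only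
    rw [fourier_apply, fourier_apply, smul_add, AddCircle.toCircle_add, ← AddCircle.toCircle_zsmul]
    push_cast
    ring
  obtain ⟨κ1, hκ1, e1⟩ := le_of_pd (ν := lam) (ρ := μ1)
    (f := fun n => φ (((e ^ n : A) : G) ^ a) - η (e ^ n)) (c := 1 - c)
    (by
      simp only [zpow_zero, h1]
      rw [Subgroup.coe_one, one_zpow, D.h1]
      push_cast; rfl)
    (fun n => by rw [c1, hl]) (fun N w => pd_seq hφ e N w)
  obtain ⟨κ2, hκ2, e2⟩ := le_of_pd (ν := lam) (ρ := ν1)
    (f := fun n => (χ (e ^ n) : ℂ) * ψ (((e ^ n : A) : G) ^ b) - η (e ^ n)) (c := 1 - c)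
    (by
      simp only [zpow_zero, h1]
      rw [Subgroup.coe_one, one_zpow, D'.h1, map_one]
      push_cast; ring)
    (fun n => by rw [c2, hl]) (fun N w => pd_seq hψ e N w)
  have hmass : lam Set.univ = c := by
    have h3 := hl 0
    simp only [zpow_zero, h1, fourier_zero, integral_const, Complex.real_smul, mul_one] at h3
    have h4 : lam.real Set.univ = (c : ℝ) := by exact_mod_cast h3
    rw [← ofReal_measureReal, h4, ENNReal.ofReal_coe_nnreal]
  intro B hB
  have hle1 : lam B ≤ μ1 B := by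
    rw [e1, Measure.add_apply]
    exact le_add_self
  have hle2 : lam Bᶜ ≤ ν1 Bᶜ := by
    rw [e2, Measure.add_apply]
    exact le_add_self
  have h3 : μ1 B = μ {x | a • x ∈ B} := Measure.map_apply hma hB
  have h4 : ν1 Bᶜ = ν {x | b • x + θ ∉ B} := Measure.map_apply hmb hB.compl
  calc (c : ℝ≥0∞) = lam B + lam Bᶜ := by rw [measure_add_measure_compl hB, hmass]
    _ ≤ μ1 B + ν1 Bᶜ := add_le_add hle1 hle2
    _ = _ := by rw [h3, h4]

end Grp

section Tors

open Pool.Agent.R203.SC (coprime_inj)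

/-- a sequence of successive sixth parts in a finite set is of finite order prime to six -/
lemma seq_tors {Θ : Set UnitAddCircle} (hΘ : Θ.Finite) {θ : ℕ → UnitAddCircle} (h : ∀ k, θ k ∈ Θ)
    (h6 : ∀ k, 6 • θ (k + 1) = θ k) : ∃ N : ℕ, 1 ≤ N ∧ N.Coprime 6 ∧ ∀ k, N • θ k = 0 := by
  have hpow : ∀ k l : ℕ, 6 ^ l • θ (k + l) = θ k := by
    intro k l
    induction l with
    | zero => simp
    | succ l ih =>
      rw [pow_succ, mul_smul, ← add_assoc, h6, ih]
  -- a value which is taken infinitely often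
  obtain ⟨v, hv, hinf⟩ : ∃ v ∈ Θ, {k : ℕ | θ k = v}.Infinite := by
    by_contra hcon
    push Not at hcon
    have h1 : (⋃ v ∈ Θ, {k : ℕ | θ k = v}).Finite := hΘ.biUnion fun v hv => by
      exact hcon v hv
    have h2 : (⋃ v ∈ Θ, {k : ℕ | θ k = v}) = Set.univ := by
      ext k
      simp only [Set.mem_iUnion, Set.mem_ofPred_eq, exists_prop, exists_eq_right', Set.mem_univ,
        iff_true]
      exact h k
    rw [h2] at h1
    exact Set.infinite_univ h1
  obtain ⟨k, hk, -⟩ := hinf.exists_gt 0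
  obtain ⟨l, hl, hkl⟩ := hinf.exists_gt k
  have hk : θ k = v := hk
  have hl : θ l = v := hl
  obtain ⟨m, rfl⟩ := Nat.exists_eq_add_of_lt hkl
  have h1 := hpow k (m + 1)
  rw [← add_assoc, hl, hk] at h1
  have h6m : 6 ≤ 6 ^ (m + 1) := by
    calc 6 = 6 ^ 1 := by norm_num
      _ ≤ 6 ^ (m + 1) := Nat.pow_le_pow_right (by norm_num) (by omega)
  refine ⟨6 ^ (m + 1) - 1, by omega, ?_, fun j => ?_⟩
  · have h7 : Nat.Coprime (6 ^ (m + 1) - 1) (6 ^ (m + 1)) := by
      rw [Nat.coprime_comm]
      exact Nat.coprime_self_sub_right (by omega) |>.2 (Nat.coprime_one_right _)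
    exact Nat.Coprime.coprime_dvd_right (dvd_pow_self 6 (by omega)) h7
  · obtain ⟨i, hi, hji⟩ := hinf.exists_gt j
    have hi : θ i = v := hi
    obtain ⟨d, rfl⟩ := Nat.exists_eq_add_of_lt hji
    have h2 := hpow j (d + 1)
    rw [← add_assoc, hi] at h2
    rw [← h2, smul_comm, sub_nsmul _ (by omega), h1, one_smul]
    simp

lemma seq_inj {θ θ' : ℕ → UnitAddCircle} (h6 : ∀ k, 6 • θ (k + 1) = θ k)
    (h6' : ∀ k, 6 • θ' (k + 1) = θ' k) {N N' : ℕ} (hN : N.Coprime 6) (hN' : N'.Coprime 6)
    (h : ∀ k, N • θ k = 0) (h' : ∀ k, N' • θ' k = 0) (h0 : θ 0 = θ' 0) (k : ℕ) : θ k = θ' k := by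
  induction k with
  | zero => exact h0
  | succ k ih =>
    refine coprime_inj (D := 6) (N := N * N') (Nat.Coprime.mul_right hN.symm hN'.symm) ?_ ?_ ?_
    · rw [mul_comm, mul_smul, h, smul_zero]
    · rw [mul_smul, h', smul_zero]
    · rw [h6, h6', ih]

end Tors

end Pool.Agent.L7h48.TR
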