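import Pool.Agent.L7h48.TR.Common

/-!
# Common parts: the characters of the translations
-/

set_option autoImplicit false

open MeasureTheory Filter Topology Finset
open scoped ComplexOrder ComplexConjugate ENNReal NNReal

namespace Pool.Agent.L7h48.TR

open Pool.Agent.TH654.FC Pool.Agent.W763.Tr Pool.Agent.TH463.UQ Pool.Agent.R481.TraceErg
open Pool.Agent.R477.XQ (Ov main_iff)

/-- a common positive definite part of mass `c` -/
def Comm {G : Subgroup (Equiv.Perm ℚ)} (A : Subgroup G) (a b : ℤ) (c : ℝ) (φ ψ : G → ℂ)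
    (χ : A →* Circle) : Prop :=
  ∃ η : A → ℂ, η 1 = (c : ℂ) ∧ PD η ∧ PD (fun h : A => φ ((h : G) ^ a) - η h) ∧
    PD (fun h : A => (χ h : ℂ) * ψ ((h : G) ^ b) - η h)

section

variable {G : Subgroup (Equiv.Perm ℚ)} {τ τ' : ℤ → G} {φ ψ : G → ℂ} {S6 S6' : G}
  {μ ν : Measure UnitAddCircle} {A : Subgroup G}
  (hA : ∀ h : G, h ∈ A ↔ ∃ r : ℚ, ∀ x : ℚ, (h : Equiv.Perm ℚ) x = x + r)

include hA in
/-- the roots of the translation by one -/
lemma exists_roots (D : Data G τ φ S6 μ) : ∃ e : ℕ → A,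
    (∀ k, ∀ x : ℚ, ((e k : G) : Equiv.Perm ℚ) x = x + 1 / 6 ^ k) ∧
    (∀ k, e (k + 1) ^ 6 = e k) ∧ ∀ h : A, ∃ (k : ℕ) (n : ℤ), h = e k ^ n := by
  choose e he using exists_root D
  refine ⟨fun k => ⟨e k, (hA _).2 ⟨_, he k⟩⟩, he, fun k => ?_, fun h => ?_⟩
  · apply Subtype.ext
    apply Subtype.ext
    apply Equiv.ext
    intro x
    rw [Subgroup.coe_pow]
    have h1 := Pool.Agent.R481.TraceFS.zpow_apply (he (k + 1)) 6 x
    have h2 : (e (k + 1)) ^ (6 : ℤ) = e (k + 1) ^ (6 : ℕ) := by norm_cast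
    rw [h2] at h1
    change ((e (k + 1) ^ 6 : G) : Equiv.Perm ℚ) x = (e k : Equiv.Perm ℚ) x
    rw [h1, he]
    field_simp
    ring
  · obtain ⟨r, hr⟩ := (hA h).1 h.2
    obtain ⟨n, k, rfl⟩ := D.six hr
    refine ⟨k, n, ?_⟩
    apply Subtype.ext
    apply Subtype.ext
    apply Equiv.ext
    intro x
    rw [Subgroup.coe_zpow]
    change ((h : G) : Equiv.Perm ℚ) x = ((e k ^ n : G) : Equiv.Perm ℚ) x
    rw [hr, Pool.Agent.R481.TraceFS.zpow_apply (he k)]
    ring

/-- the angle of a point of the unit circle -/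
noncomputable def ang (z : Circle) : UnitAddCircle :=
  Function.surjInv (f := (AddCircle.toCircle : UnitAddCircle → Circle)) (by
    intro z
    obtain ⟨θ, hθ⟩ := (AddCircle.homeomorphCircle (T := (1 : ℝ)) one_ne_zero).surjective z
    exact ⟨θ, by rw [← hθ, AddCircle.homeomorphCircle_apply]⟩) z

lemma ang_spec (z : Circle) : AddCircle.toCircle (ang z) = z := Function.surjInv_eq _ z

lemma toC_inj {x y : UnitAddCircle} (h : AddCircle.toCircle x = AddCircle.toCircle y) : x = y :=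
  AddCircle.injective_toCircle (T := (1 : ℝ)) one_ne_zero h

include hA in
/-- **Not dominated: finitely many characters, all of finite order.** -/
theorem fin_of_not (D : Data G τ φ S6 μ) {c : ℝ≥0} (hnot : ¬ ((c : ℝ≥0∞) • volume ≤ μ)) {a b : ℤ}
    (ha : a ≠ 0) (hb : b ≠ 0) {TS : Set (G → ℂ)}
    (hTS : ∀ ψ ∈ TS, ∃ (τ' : ℤ → G) (S6' : G) (ν : Measure UnitAddCircle), Data G τ' ψ S6' ν) :
    {χ : A →* Circle | ∃ ψ ∈ TS, Comm A a b c φ ψ χ}.Finite ∧
      ∀ χ : A →* Circle, (∃ ψ ∈ TS, Comm A a b c φ ψ χ) → ∃ N : ℕ, 1 ≤ N ∧ χ ^ N = 1 := by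
  have := D.prob
  obtain ⟨e, he, he6, hgen⟩ := exists_roots hA D
  set Θ : Set UnitAddCircle := {θ | ∃ ν : Measure UnitAddCircle, IsProbabilityMeasure ν ∧
      MeasurePreserving (fun x : UnitAddCircle => 2 • x) ν ν ∧
      MeasurePreserving (fun x : UnitAddCircle => 3 • x) ν ν ∧ Ov c a b μ ν θ} with hΘdef
  have hΘ : Θ.Finite := (main_iff (p := 2) (q := 3) le_rfl (by norm_num) irr23 ha hb D.mp2
    D.mp3).2 hnot
  set S : Set (A →* Circle) := {χ | ∃ ψ ∈ TS, Comm A a b c φ ψ χ} with hS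
  have hmem : ∀ χ ∈ S, ∀ k, ang (χ (e k)) ∈ Θ := by
    rintro χ ⟨ψ, hψ, η, h1, h2, h3, h4⟩ k
    obtain ⟨τ', S6', ν, D'⟩ := hTS ψ hψ
    exact ⟨ν, D'.prob, D'.mp2, D'.mp3, ov_of_common D D' (he k) h1 h2 h3 h4 (ang_spec _)⟩
  have h6 : ∀ (χ : A →* Circle) (k : ℕ), 6 • ang (χ (e (k + 1))) = ang (χ (e k)) := by
    intro χ k
    apply toC_inj
    rw [AddCircle.toCircle_nsmul, ang_spec, ang_spec, ← map_pow, he6]
  have htor : ∀ χ ∈ S, ∃ N : ℕ, 1 ≤ N ∧ N.Coprime 6 ∧ ∀ k, N • ang (χ (e k)) = 0 := fun χ hχ =>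
    seq_tors hΘ (hmem χ hχ) (h6 χ)
  refine ⟨?_, fun χ hχ => ?_⟩
  · refine Set.Finite.of_finite_image (f := fun χ : A →* Circle => ang (χ (e 0))) ?_ ?_
    · refine hΘ.subset ?_
      rintro _ ⟨χ, hχ, rfl⟩
      exact hmem χ hχ 0
    · intro χ hχ χ' hχ' h0
      obtain ⟨N, -, hN, hN2⟩ := htor χ hχ
      obtain ⟨N', -, hN', hN2'⟩ := htor χ' hχ'
      have h7 := seq_inj (h6 χ) (h6 χ') hN hN' hN2 hN2' h0
      ext h
      obtain ⟨k, n, rfl⟩ := hgen h
      rw [map_zpow, map_zpow, ← ang_spec (χ (e k)), ← ang_spec (χ' (e k)), h7 k]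
  · obtain ⟨N, hN1, -, hN⟩ := htor χ hχ
    refine ⟨N, hN1, ?_⟩
    ext h
    obtain ⟨k, n, rfl⟩ := hgen h
    have h7 : χ (e k) ^ N = 1 := by
      rw [← ang_spec (χ (e k)), ← AddCircle.toCircle_nsmul, hN, AddCircle.toCircle_zero]
    rw [map_zpow, MonoidHom.pow_apply, h7, one_zpow]
    rfl

/-- the regular trace -/
noncomputable def reg (G : Subgroup (Equiv.Perm ℚ)) (h : G) : ℂ := by
  classical exact if h = 1 then 1 else 0

lemma trans_one {h : G} {n : ℤ} {k : ℕ} (hh : ∀ x : ℚ, (h : Equiv.Perm ℚ) x = x + n / 6 ^ k) :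
    h = 1 ↔ n = 0 := by
  constructor
  · rintro rfl
    have h1 := hh 0
    simp only [Subgroup.coe_one, Equiv.Perm.coe_one, id_eq, zero_add] at h1
    have h2 : (n : ℚ) = 0 := by
      have h6 : (6 : ℚ) ^ k ≠ 0 := by positivity
      field_simp at h1
      linarith
    exact_mod_cast h2
  · intro hn
    apply Subtype.ext
    apply Equiv.ext
    intro x
    rw [hh, hn]
    simp

lemma mp_vol2 {p : ℕ} (hp : 2 ≤ p) :
    MeasurePreserving (fun x : UnitAddCircle => p • x) (volume : Measure UnitAddCircle) volume :=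
  (AddCircle.ergodic_nsmul (by omega : 1 < p)).toMeasurePreserving

lemma int_f (m : ℤ) (σ : Measure UnitAddCircle) [IsFiniteMeasure σ] :
    Integrable (fun x : UnitAddCircle => (fourier m x : ℂ)) σ :=
  (by fun_prop : Continuous (fun x : UnitAddCircle =>
    (fourier m x : ℂ))).integrable_of_hasCompactSupport (HasCompactSupport.of_compactSpace _)

/-- the part which is left is invariant -/
lemma mp_rest {κ : Measure UnitAddCircle} [IsFiniteMeasure κ] [IsFiniteMeasure μ] {c : ℝ≥0}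
    (h : μ = κ + (c : ℝ≥0∞) • volume) {p : ℕ} (hp : 2 ≤ p)
    (hμ : MeasurePreserving (fun x : UnitAddCircle => p • x) μ μ) :
    MeasurePreserving (fun x : UnitAddCircle => p • x) κ κ := by
  have hm : Measurable fun x : UnitAddCircle => p • x := (continuous_nsmul p).measurable
  refine ⟨hm, ?_⟩
  have h1 := hμ.map_eq
  rw [h, Measure.map_add _ _ hm, Measure.map_smul, (mp_vol2 hp).map_eq] at h1
  ext B hB
  have h2 := congrArg (fun m : Measure UnitAddCircle => m B) h1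
  simp only [Measure.add_apply] at h2
  refine (ENNReal.add_left_inj ?_).1 h2
  rw [Measure.smul_apply, smul_eq_mul]
  exact ENNReal.mul_ne_top ENNReal.coe_ne_top (measure_ne_top _ _)

include hA in
/-- **Domination of the measure gives domination of the trace.** -/
lemma dom_of_le (D : Data G τ φ S6 μ) {c : ℝ≥0} (hle : (c : ℝ≥0∞) • volume ≤ μ) :
    PD (fun h : A => φ h - ((c : ℝ) : ℂ) * reg G h) := by
  have := D.prob
  set κ : Measure UnitAddCircle := μ - (c : ℝ≥0∞) • volume with hκ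
  have hfin : IsFiniteMeasure ((c : ℝ≥0∞) • (volume : Measure UnitAddCircle)) :=
    isFiniteMeasure_of_le μ hle
  have hsum : μ = κ + (c : ℝ≥0∞) • volume := (Measure.sub_add_cancel_of_le hle).symm
  have hκf : IsFiniteMeasure κ := isFiniteMeasure_of_le μ Measure.sub_le
  have m2 := mp_rest hsum le_rfl D.mp2
  have m3 := mp_rest hsum (by norm_num) D.mp3
  have hpd := ext_pd m2 m3 D.hform
  have hval : ∀ h : A, ext G κ (h : G) = φ h - ((c : ℝ) : ℂ) * reg G h := by
    intro h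
    obtain ⟨r, hr⟩ := (hA h).1 h.2
    obtain ⟨n, k, rfl⟩ := D.six hr
    rw [ext_trans m2 m3 hr, phi_trans D.hτ D.hcl S6 D.hS6 _ n k hr, ← D.hμ, hsum,
      integral_add_measure (int_f n κ) (int_f n _), integral_smul_measure, integral_fourier']
    unfold reg
    by_cases hn : n = 0
    · rw [if_pos hn, if_pos ((trans_one hr).2 hn)]
      simp
    · rw [if_neg hn, if_neg (fun h1 => hn ((trans_one hr).1 h1))]
      simp
  intro s w
  refine le_of_le_of_eq (hpd.family s (fun h : A => (h : G)) w) ?_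
  refine sum_congr rfl fun i _ => sum_congr rfl fun j _ => ?_
  show _ = star (w j) * w i *
    (φ ((j⁻¹ * i : A) : G) - ((c : ℝ) : ℂ) * reg G ((j⁻¹ * i : A) : G))
  rw [← hval]
  rfl

include hA in
/-- domination of the trace gives domination of the measure -/
lemma le_of_dom (D : Data G τ φ S6 μ) {c : ℝ≥0}
    (h : PD (fun h : A => φ h - ((c : ℝ) : ℂ) * reg G h)) :
    ∃ κ : Measure UnitAddCircle, IsFiniteMeasure κ ∧ μ = κ + (c : ℝ≥0∞) • volume := by
  have := D.prob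
  obtain ⟨e, he, -, -⟩ := exists_roots hA D
  have hfin : IsFiniteMeasure ((c : ℝ≥0∞) • (volume : Measure UnitAddCircle)) :=
    ⟨by rw [Measure.smul_apply, smul_eq_mul]
        exact ENNReal.mul_lt_top ENNReal.coe_lt_top (measure_lt_top _ _)⟩
  refine le_of_pd (ν := (c : ℝ≥0∞) • volume) (ρ := μ)
    (f := fun n : ℤ => φ ((e 0 ^ n : A) : G) - ((c : ℝ) : ℂ) * reg G ((e 0 ^ n : A) : G))
    (c := 1 - c) ?_ (fun n => ?_) (fun N w => pd_seq h (e 0) N w)
  · simp only [zpow_zero, Subgroup.coe_one, D.h1, reg, if_true, mul_one]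
    push_cast; rfl
  · have h1 : ∀ x : ℚ, (((e 0 ^ n : A) : G) : Equiv.Perm ℚ) x = x + n / 6 ^ 0 := by
      intro x
      rw [Subgroup.coe_zpow, Pool.Agent.R481.TraceFS.zpow_apply (he 0)]
      ring
    rw [phi_trans D.hτ D.hcl S6 D.hS6 _ n 0 h1, ← D.hμ, integral_smul_measure, integral_fourier']
    unfold reg
    by_cases hn : n = 0
    · rw [if_pos hn, if_pos ((trans_one h1).2 hn)]
      simp
    · rw [if_neg hn, if_neg (fun h1' => hn ((trans_one h1).1 h1'))]
      simp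

end

end Pool.Agent.L7h48.TR
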