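import Pool.Agent.L7h48.TR.SlowTr

/-!
# Extreme traces of large level on short intervals
-/

set_option autoImplicit false

open MeasureTheory Filter Topology Finset
open scoped ComplexOrder ComplexConjugate

namespace Pool.Agent.L7h48.TR

open Pool.Agent.TH654.FC Pool.Agent.W763.Tr Pool.Agent.TH463.UQ

variable {G : Subgroup (Equiv.Perm ℚ)} {τ : ℤ → G} {φ : G → ℂ} {S6 : G} {μ : Measure UnitAddCircle}

set_option linter.unusedVariables false in
/-- the kernel of an extreme trace whose measure has an atom of finite order (the proof is that of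
`TH463.UQ.kernel'`, with the level kept) -/
lemma kernelN (D : Data G τ φ S6 μ)
    (hext : φ ∈ Set.extremePoints ℝ {ψ : G → ℂ | ψ 1 = 1 ∧ (∀ g h : G, ψ (h * g * h⁻¹) = ψ g) ∧
        ∀ (s : Finset G) (c : G → ℂ), 0 ≤ ∑ i ∈ s, ∑ j ∈ s, star (c j) * c i * ψ (j⁻¹ * i)})
    {N : ℕ} (hN1 : 1 ≤ N) (hN : μ {x : UnitAddCircle | N • x = 0} ≠ 0) :
    ∀ n : ℤ, φ (τ (N * n)) = 1 := by
  have := D.prob
  set lam : ℝ := μ.real {x : UnitAddCircle | N • x = 0} with hlam
  have hpos : 0 < lam := by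
    rw [hlam, Measure.real, ENNReal.toReal_pos_iff]
    exact ⟨pos_iff_ne_zero.mpr hN, measure_lt_top _ _⟩
  have hm : MeasurableSet {x : UnitAddCircle | N • x = 0} :=
    (isClosed_eq (by fun_prop) continuous_const).measurableSet
  have hnorm := D.normal N
  have key := extreme_kernel φ hext (transl G N) lam hpos (by
    intro ι t w b hb hw0 hw1
    -- common denominator
    have hch : ∀ i : ι, ∃ (n : ℤ) (k : ℕ), i ∈ t → ∀ x, (b i : Equiv.Perm ℚ) x = x + N * (n / 6 ^ k) := by
      intro i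
      by_cases hi : i ∈ t
      · obtain ⟨r, ⟨n, k, rfl⟩, h⟩ := hb i hi
        exact ⟨n, k, fun _ => h⟩
      · exact ⟨0, 0, fun h => absurd h hi⟩
    choose n0 k0 hn0 using hch
    set K := t.sup k0 with hK
    set n : ι → ℤ := fun i => n0 i * 6 ^ (K - k0 i) with hn
    have hbt : ∀ i ∈ t, ∀ x, (b i : Equiv.Perm ℚ) x = x + N * (n i / 6 ^ K) := by
      intro i hi x
      rw [hn0 i hi x, hn]
      have hle : k0 i ≤ K := Finset.le_sup hi
      have e : (6 : ℚ) ^ K = 6 ^ (K - k0 i) * 6 ^ k0 i := by rw [← pow_add]; congr 1; omega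
      have h6 : (6 : ℚ) ^ (K - k0 i) ≠ 0 := by positivity
      have h6' : (6 : ℚ) ^ (k0 i) ≠ 0 := by positivity
      push_cast
      rw [e]
      field_simp
    have hval : ∀ i ∈ t, ∀ j ∈ t, φ ((b j)⁻¹ * b i) = ∫ x, fourier (N * (n i - n j)) x ∂μ := by
      intro i hi j hj
      rw [D.hμ]
      refine phi_trans D.hτ D.hcl S6 D.hS6 _ _ K fun x => ?_
      rw [Subgroup.coe_mul, Equiv.Perm.mul_apply, Subgroup.coe_inv, Equiv.Perm.inv_eq_iff_eq,
        hbt i hi, hbt j hj]
      push_cast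
      field_simp
      ring
    set F : UnitAddCircle → ℂ := fun x => ∑ i ∈ t, (w i : ℂ) * fourier (N * n i) x with hF
    have hFc : Continuous F := by rw [hF]; fun_prop
    have hsq : ∀ x, ((‖F x‖ ^ 2 : ℝ) : ℂ) =
        ∑ i ∈ t, ∑ j ∈ t, (w j : ℂ) * w i * fourier (N * (n i - n j)) x := by
      intro x
      have e1 : ((‖F x‖ ^ 2 : ℝ) : ℂ) = F x * starRingEnd ℂ (F x) := by
        rw [Complex.mul_conj, Complex.normSq_eq_norm_sq]
      rw [e1, hF]
      simp only
      rw [map_sum, Finset.sum_mul]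
      refine Finset.sum_congr rfl fun i _ => ?_
      rw [Finset.mul_sum]
      refine Finset.sum_congr rfl fun j _ => ?_
      rw [map_mul, Complex.conj_ofReal, ← fourier_neg]
      have e2 : fourier (N * (n i - n j)) x = fourier (N * n i) x * fourier (-(N * n j)) x := by
        rw [← fourier_add]; congr 1; ring_nf
      rw [e2]; ring
    have hsum : ∑ i ∈ t, ∑ j ∈ t, (w j : ℂ) * w i * φ ((b j)⁻¹ * b i) =
        ∫ x, ((‖F x‖ ^ 2 : ℝ) : ℂ) ∂μ := by
      simp only [hsq]
      have hi : ∀ m : ℤ, Integrable (fun x : UnitAddCircle => (fourier m x : ℂ)) μ := fun m =>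
        (by fun_prop : Continuous (fun x : UnitAddCircle =>
          (fourier m x : ℂ))).integrable_of_hasCompactSupport (HasCompactSupport.of_compactSpace _)
      rw [integral_finsetSum]
      · refine Finset.sum_congr rfl fun i hi' => ?_
        rw [integral_finsetSum]
        · refine Finset.sum_congr rfl fun j hj' => ?_
          rw [integral_const_mul, hval i hi' j hj']
        · intro j _
          exact (hi _).const_mul _
      · intro i _
        exact integrable_finsetSum _ fun j _ => (hi _).const_mul _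
    rw [hsum, integral_complex_ofReal, Complex.ofReal_re, hlam]
    have hint : Integrable (fun x => ‖F x‖ ^ 2) μ :=
      Pool.Agent.H261R2.FU.int_sq_cont (by fun_prop)
    calc μ.real {x : UnitAddCircle | N • x = 0}
        = ∫ x, ({x : UnitAddCircle | N • x = 0}.indicator (fun _ => (1 : ℝ))) x ∂μ := by
          rw [integral_indicator hm]; simp [Measure.real]
      _ ≤ ∫ x, ‖F x‖ ^ 2 ∂μ := by
          apply integral_mono ((integrable_const (1 : ℝ)).indicator hm) hint
          intro x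
          by_cases hx : x ∈ {x : UnitAddCircle | N • x = 0}
          · rw [Set.indicator_of_mem hx]
            have h7 : F x = 1 := by
              rw [hF]
              simp only
              have h8 : ∀ i, fourier (N * n i) x = (1 : ℂ) := by
                intro i
                rw [fourier_eq_one, mul_comm, mul_smul, natCast_zsmul,
                  show N • x = 0 from hx, smul_zero]
                simp
              simp only [h8, mul_one]
              have := congrArg (fun r : ℝ => (r : ℂ)) hw1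
              simpa using this
            simp only [h7, norm_one, one_pow]
            exact le_rfl
          · rw [Set.indicator_of_notMem hx]; positivity)
  refine fun n => key _ ⟨n, ⟨n, 0, by simp⟩, fun x => ?_⟩
  rw [D.hτ]; push_cast; ring

/-- a value equal to one -/
lemma ae_of_one [IsProbabilityMeasure μ] {n : ℤ} (h : ∫ x, (fourier n x : ℂ) ∂μ = 1) :
    ∀ᵐ x ∂μ, n • x = 0 := by
  have hi : Integrable (fun x : UnitAddCircle => (fourier n x : ℂ)) μ := int_cont (by fun_prop)
  have hir : Integrable (fun x : UnitAddCircle => (fourier n x : ℂ).re) μ := hi.re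
  have h1 : ∫ x, (1 - (fourier n x : ℂ).re) ∂μ = 0 := by
    rw [integral_sub (integrable_const _) hir]
    have : ∫ x, (fourier n x : ℂ).re ∂μ = (∫ x, (fourier n x : ℂ) ∂μ).re := integral_re hi
    rw [this, h]
    simp
  have h2 : ∀ x : UnitAddCircle, 0 ≤ 1 - (fourier n x : ℂ).re := by
    intro x
    have h3 := Complex.re_le_norm (fourier n x : ℂ)
    have h4 : ‖(fourier n x : ℂ)‖ = 1 := by rw [fourier_apply]; exact Circle.norm_coe _
    linarith
  have h3 := (integral_eq_zero_iff_of_nonneg h2 ((integrable_const _).sub hir)).1 h1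
  filter_upwards [h3] with x hx
  have hre : (fourier n x : ℂ).re = 1 := by
    have : 1 - (fourier n x : ℂ).re = 0 := hx
    linarith
  have hnorm : ‖(fourier n x : ℂ)‖ = 1 := by rw [fourier_apply]; exact Circle.norm_coe _
  have him : (fourier n x : ℂ).im = 0 := by
    have h5 : ‖(fourier n x : ℂ)‖ ^ 2 = 1 := by rw [hnorm]; norm_num
    rw [← Complex.normSq_eq_norm_sq, Complex.normSq_apply, hre] at h5
    nlinarith
  have h6 : (fourier n x : ℂ) = 1 := Complex.ext hre him
  rw [fourier_apply] at h6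
  have h7 : AddCircle.toCircle (n • x) = AddCircle.toCircle (0 : UnitAddCircle) := by
    rw [AddCircle.toCircle_zero]
    exact Subtype.ext h6
  exact AddCircle.injective_toCircle one_ne_zero h7

lemma pow_mp {p : ℕ} (h : MeasurePreserving (fun x : UnitAddCircle => p • x) μ μ) (i : ℕ) :
    MeasurePreserving (fun x : UnitAddCircle => p ^ i • x) μ μ := by
  have := h.iterate i
  convert this using 1
  funext x
  induction i with
  | zero => simp
  | succ i ih =>
    rw [Function.iterate_succ_apply', ← ih (h.iterate i), ← mul_smul, pow_succ']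

/-- **The masses of the points** of an extreme trace of large level. -/
lemma mass_le (D : Data G τ φ S6 μ)
    (hext : φ ∈ Set.extremePoints ℝ {ψ : G → ℂ | ψ 1 = 1 ∧ (∀ g h : G, ψ (h * g * h⁻¹) = ψ g) ∧
        ∀ (s : Finset G) (c : G → ℂ), 0 ≤ ∑ i ∈ s, ∑ j ∈ s, star (c j) * c i * ψ (j⁻¹ * i)})
    {m : ℤ} {P : ℕ} (h1 : φ (τ (m * P)) = 1)
    (hmin : ∀ n : ℕ, 1 ≤ n → n < P → φ (τ (m * n)) ≠ 1) {K : ℕ} (hK : 2 ^ K < P)
    (y : UnitAddCircle) : (K + 1) * μ.real {x | m • x = y} ≤ 1 := by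
  have := D.prob
  have h2K : 1 ≤ 2 ^ K := Nat.one_le_two_pow
  have hP : 1 ≤ P := by omega
  have hm0 : m ≠ 0 := by
    rintro rfl
    apply hmin 1 le_rfl (by omega)
    rw [zero_mul, tau_zero D.hτ, D.h1]
  have hc : ∀ z : UnitAddCircle, MeasurableSet {x : UnitAddCircle | m • x = z} := fun z =>
    (isClosed_eq (by fun_prop) continuous_const).measurableSet
  by_cases hy : μ {x : UnitAddCircle | m • x = y} = 0
  · rw [measureReal_def, hy]; simp
  have hae := ae_of_one (μ := μ) (n := m * P) (by rw [D.hμ, h1])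
  -- the point is of finite order
  have hPy : P • y = 0 := by
    obtain ⟨x, hx1, hx2⟩ : ∃ x, m • x = y ∧ (m * (P : ℤ)) • x = 0 := by
      by_contra hcon
      push Not at hcon
      apply hy
      refine measure_mono_null ?_ (ae_iff.1 hae)
      intro x hx
      exact hcon x hx
    rw [← hx1, ← natCast_zsmul, smul_smul, mul_comm]
    exact hx2
  set o := addOrderOf y with ho
  have hoP : o ∣ P := addOrderOf_dvd_of_nsmul_eq_zero hPy
  have ho1 : 1 ≤ o := Nat.pos_of_dvd_of_pos hoP (by omega)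
  have hoy : o • y = 0 := addOrderOf_nsmul_eq_zero y
  have hmn : 1 ≤ m.natAbs := Int.natAbs_pos.2 hm0
  have hker := kernelN D hext (N := o * m.natAbs) (Nat.mul_pos ho1 hmn) (by
    intro h0
    apply hy
    refine measure_mono_null ?_ h0
    intro x hx
    have hx : m • x = y := hx
    show (o * m.natAbs) • x = 0
    rw [mul_smul]
    have h5 : m.natAbs • x = y ∨ m.natAbs • x = -y := by
      rcases Int.natAbs_eq m with h | h
      · left
        rw [← natCast_zsmul, ← h, hx]
      · right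
        rw [← natCast_zsmul]
        have : ((m.natAbs : ℕ) : ℤ) = -m := by omega
        rw [this, neg_smul, hx]
    rcases h5 with h5 | h5
    · rw [h5, hoy]
    · rw [h5, smul_neg, hoy, neg_zero])
  have hoP' : o = P := by
    by_contra hne
    have hlt : o < P := lt_of_le_of_ne (Nat.le_of_dvd (by omega) hoP) hne
    apply hmin o ho1 hlt
    rcases Int.natAbs_eq m with h | h
    · have h6 := hker 1
      have h7 : (((o * m.natAbs : ℕ) : ℤ)) * 1 = m * o := by
        push_cast
        rw [mul_one, mul_comm]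
        congr 1
        exact_mod_cast h.symm
      rwa [h7] at h6
    · have h6 := hker (-1)
      have h7 : (((o * m.natAbs : ℕ) : ℤ)) * (-1) = m * o := by
        have h8 : ((m.natAbs : ℕ) : ℤ) = -m := by omega
        push_cast
        rw [Int.natCast_natAbs] at h8
        rw [h8]
        ring
      rwa [h7] at h6
  -- the orbit
  set w := μ.real {x : UnitAddCircle | m • x = y} with hw
  have hmass : ∀ i : ℕ, w ≤ μ.real {x : UnitAddCircle | m • x = 2 ^ i • y} := by
    intro i
    have h5 := (pow_mp D.mp2 i).measureReal_preimage (hc (2 ^ i • y)).nullMeasurableSet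
    rw [← h5]
    refine measureReal_mono ?_
    intro x hx
    show m • (2 ^ i • x) = 2 ^ i • y
    have hx : m • x = y := hx
    rw [smul_comm, hx]
  have hinj : ∀ i ∈ Finset.range (K + 1), ∀ j ∈ Finset.range (K + 1), i < j →
      (2 ^ i • y : UnitAddCircle) ≠ 2 ^ j • y := by
    intro i hi j hj hij he
    rw [Finset.mem_range] at hi hj
    have h6 : (2 ^ j - 2 ^ i) • y = 0 := by
      rw [sub_nsmul _ (Nat.pow_le_pow_right (by omega) hij.le), he]
      simp
    have h7 := addOrderOf_dvd_of_nsmul_eq_zero h6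
    rw [← ho, hoP'] at h7
    have h3 : 2 ^ i < 2 ^ j := Nat.pow_lt_pow_right (by omega) hij
    have h4 : 2 ^ j ≤ 2 ^ K := Nat.pow_le_pow_right (by omega) (by omega)
    have h5 := Nat.le_of_dvd (by omega) h7
    have h6 : 0 < 2 ^ i := by positivity
    omega
  have hsum : ∑ i ∈ Finset.range (K + 1), μ.real {x : UnitAddCircle | m • x = 2 ^ i • y} ≤ 1 := by
    rw [← measureReal_biUnion_finset]
    · exact measureReal_le_one
    · intro i hi j hj hij
      refine Set.disjoint_left.2 fun x hx hx' => ?_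
      have hx : m • x = 2 ^ i • y := hx
      have hx' : m • x = 2 ^ j • y := hx'
      rcases lt_or_gt_of_ne hij with h | h
      · exact hinj i hi j hj h (hx.symm.trans hx')
      · exact hinj j hj i hi h (hx'.symm.trans hx)
    · intro i _
      exact hc _
  calc ((K : ℝ) + 1) * w = ∑ i ∈ Finset.range (K + 1), w := by
        rw [Finset.sum_const, Finset.card_range, nsmul_eq_mul]; push_cast; ring
    _ ≤ ∑ i ∈ Finset.range (K + 1), μ.real {x : UnitAddCircle | m • x = 2 ^ i • y} :=
        Finset.sum_le_sum fun i _ => hmass i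
    _ ≤ 1 := hsum

lemma Dn_tors {P : ℕ} (hP : 1 ≤ P) {u : UnitAddCircle} (hu : P • u = 0) :
    Dn P u = if u = 0 then 1 else 0 := by
  have hPc : (P : ℂ) ≠ 0 := by exact_mod_cast (by omega : P ≠ 0)
  have hk : ∀ k : ℕ, (fourier (k : ℤ) u : ℂ) = (fourier 1 u : ℂ) ^ k := by
    intro k
    rw [fourier_apply, fourier_apply, one_smul, natCast_zsmul, AddCircle.toCircle_nsmul]
    simp
  unfold Dn
  rw [sum_congr rfl (fun (k : ℕ) _ => hk k)]
  split_ifs with h
  · subst h
    have : (fourier 1 (0 : UnitAddCircle) : ℂ) = 1 := by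
      rw [fourier_apply, smul_zero, AddCircle.toCircle_zero]; simp
    rw [this]
    simp [inv_mul_cancel₀ hPc]
  · have hz : (fourier 1 u : ℂ) ^ P = 1 := by
      rw [← hk, fourier_apply, natCast_zsmul, hu, AddCircle.toCircle_zero]; simp
    have hz1 : (fourier 1 u : ℂ) ≠ 1 := by
      intro h0
      apply h
      apply AddCircle.injective_toCircle (T := (1 : ℝ)) one_ne_zero
      rw [AddCircle.toCircle_zero]
      apply Circle.ext
      rw [fourier_apply, one_smul] at h0
      exact h0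
    have h1 := geom_sum_mul (fourier 1 u : ℂ) P
    rw [hz, sub_self] at h1
    rw [(mul_eq_zero.1 h1).resolve_right (sub_ne_zero.2 hz1), mul_zero]

/-- the average over a full period -/
lemma avg_full (D : Data G τ φ S6 μ) {m : ℤ} {P : ℕ} (hP : 1 ≤ P) (h1 : φ (τ (m * P)) = 1) {w : ℝ}
    (hw : ∀ y, μ.real {x | m • x = y} ≤ w) :
    (P : ℝ)⁻¹ * ∑ n ∈ range P, ‖φ (τ (m * n))‖ ^ 2 ≤ w := by
  have := D.prob
  have hw0 : 0 ≤ w := measureReal_nonneg.trans (hw 0)
  have hae := ae_of_one (μ := μ) (n := m * P) (by rw [D.hμ, h1])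
  have hcP := Dn_cont P
  set S : Set (UnitAddCircle × UnitAddCircle) := {q | m • (q.1 - q.2) = 0} with hS
  have hSm : MeasurableSet S := (isClosed_eq (by fun_prop) continuous_const).measurableSet
  have e1 : (((P : ℝ)⁻¹ * ∑ n ∈ range P, ‖φ (τ (m * n))‖ ^ 2 : ℝ) : ℂ) =
      ∫ u, Dn P (m • u) ∂(dif μ) := by
    have hs : Measurable fun p : UnitAddCircle × UnitAddCircle => p.1 - p.2 := by fun_prop
    have hq : IsProbabilityMeasure (dif μ) := Measure.isProbabilityMeasure_map hs.aemeasurable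
    unfold Dn
    rw [integral_const_mul, integral_finsetSum]
    · push_cast
      congr 1
      refine sum_congr rfl fun n _ => ?_
      simp_rw [fourier_smul]
      rw [dif_fourier, D.hμ]
      push_cast
      rfl
    · intro n _
      exact int_cont (by fun_prop)
  have e2 : ∫ u, Dn P (m • u) ∂(dif μ) =
      ∫ q, S.indicator (fun _ => (1 : ℂ)) q ∂(μ.prod μ) := by
    unfold dif
    rw [integral_map (by fun_prop) (Continuous.aestronglyMeasurable (by fun_prop))]
    refine integral_congr_ae ?_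
    have a1 : ∀ᵐ q ∂(μ.prod μ), (m * (P : ℤ)) • q.1 = 0 :=
      Measure.quasiMeasurePreserving_fst.ae hae
    have a2 : ∀ᵐ q ∂(μ.prod μ), (m * (P : ℤ)) • q.2 = 0 :=
      Measure.quasiMeasurePreserving_snd.ae hae
    filter_upwards [a1, a2] with q hq1 hq2
    have h3 : P • (m • (q.1 - q.2)) = 0 := by
      rw [← natCast_zsmul, smul_smul, mul_comm, smul_sub, hq1, hq2, sub_zero]
    rw [Dn_tors hP h3]
    by_cases hq : m • (q.1 - q.2) = 0
    · rw [if_pos hq, Set.indicator_of_mem (show q ∈ S from hq)]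
    · rw [if_neg hq, Set.indicator_of_notMem (show q ∉ S from hq)]
  have e3 : (P : ℝ)⁻¹ * ∑ n ∈ range P, ‖φ (τ (m * n))‖ ^ 2 = (μ.prod μ).real S := by
    have h3 := e1.trans e2
    rw [integral_indicator hSm] at h3
    simp only [integral_const, MeasurableSet.univ, measureReal_restrict_apply, Set.univ_inter,
      Complex.real_smul, mul_one] at h3
    exact_mod_cast h3
  rw [e3, measureReal_def, Measure.prod_apply hSm]
  have h4 : ∫⁻ x, μ (Prod.mk x ⁻¹' S) ∂μ ≤ ENNReal.ofReal w := by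
    calc ∫⁻ x, μ (Prod.mk x ⁻¹' S) ∂μ ≤ ∫⁻ _, ENNReal.ofReal w ∂μ := by
          refine lintegral_mono fun x => ?_
          have h5 : Prod.mk x ⁻¹' S = {y : UnitAddCircle | m • y = m • x} := by
            ext y
            simp only [hS, Set.mem_preimage, Set.mem_ofPred_eq, smul_sub, sub_eq_zero]
            exact eq_comm
          rw [h5, ← ofReal_measureReal]
          exact ENNReal.ofReal_le_ofReal (hw _)
      _ = ENNReal.ofReal w := by simp
  exact ENNReal.toReal_le_of_le_ofReal hw0 h4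

/-- sums over periods -/
lemma per_sum {a : ℕ → ℝ} (ha : ∀ n, 0 ≤ a n) {P : ℕ} (hP : 1 ≤ P) (hper : ∀ n, a (n + P) = a n)
    {L : ℕ} (hL : P ≤ L) :
    (L : ℝ)⁻¹ * ∑ n ∈ range L, a n ≤ 2 * ((P : ℝ)⁻¹ * ∑ n ∈ range P, a n) := by
  have hP0 : (0 : ℝ) < P := by exact_mod_cast hP
  have hL0 : (0 : ℝ) < L := by exact_mod_cast (hP.trans hL)
  have h1 : ∀ k : ℕ, ∑ n ∈ range (k * P), a n = k * ∑ n ∈ range P, a n := by
    intro k
    induction k with
    | zero => simp
    | succ k ih =>
      rw [add_mul, one_mul, sum_range_add, ih]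
      have : ∀ n, a (k * P + n) = a n := by
        intro n
        clear ih
        induction k with
        | zero => simp
        | succ k ih =>
          have e : (k + 1) * P + n = (k * P + n) + P := by ring
          rw [e, hper, ih]
      simp_rw [this]
      push_cast
      ring
  set S := ∑ n ∈ range P, a n with hS
  have hS0 : 0 ≤ S := sum_nonneg fun n _ => ha n
  set k := L / P + 1 with hk
  have h2 : L ≤ k * P := by
    have := Nat.lt_div_mul_add (a := L) (by omega : 0 < P)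
    rw [hk, add_mul, one_mul]
    exact this.le
  have h3 : ∑ n ∈ range L, a n ≤ k * S := by
    rw [← h1]
    exact sum_le_sum_of_subset_of_nonneg (range_subset_range.2 h2) fun n _ _ => ha n
  have h4 : (k : ℝ) * P ≤ 2 * L := by
    have h5 : k * P ≤ L + P := by
      rw [hk, add_mul, one_mul]
      exact Nat.add_le_add_right (Nat.div_mul_le_self L P) P
    have h6 : k * P ≤ 2 * L := by omega
    exact_mod_cast h6
  rw [inv_mul_le_iff₀ hL0]
  refine h3.trans ?_
  have h7 : (L : ℝ) * (2 * ((P : ℝ)⁻¹ * S)) = (2 * L) * (P : ℝ)⁻¹ * S := by ring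
  rw [h7]
  refine mul_le_mul_of_nonneg_right ?_ hS0
  rw [← div_eq_mul_inv, le_div_iff₀ hP0]
  exact h4

/-- **Extreme traces of large level on short intervals.** -/
theorem ext_short {s2 s3 t : Equiv.Perm ℚ} (hs2 : ∀ x, s2 x = 2 * x) (hs3 : ∀ x, s3 x = 3 * x)
    (ht : ∀ x, t x = x + 1) {G : Subgroup (Equiv.Perm ℚ)} (hG : G = Subgroup.closure {s2, s3, t})
    {δ ε : ℝ} (hδ : 0 < δ) (hε : 0 < ε) : ∃ P₀ : ℕ, ∀ φ : G → ℂ,
      φ ∈ Set.extremePoints ℝ {ψ : G → ℂ | ψ 1 = 1 ∧ (∀ g h : G, ψ (h * g * h⁻¹) = ψ g) ∧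
        ∀ (s : Finset G) (c : G → ℂ), 0 ≤ ∑ i ∈ s, ∑ j ∈ s, star (c j) * c i * ψ (j⁻¹ * i)} →
      ∀ (g : G) (r : ℚ), (∀ x : ℚ, (g : Equiv.Perm ℚ) x = x + r) →
      ∀ P : ℕ, P₀ ≤ P → φ (g ^ P) = 1 → (∀ n : ℕ, 1 ≤ n → n < P → φ (g ^ n) ≠ 1) →
      ∀ L : ℕ, (P : ℝ) ^ δ ≤ L → (L : ℝ)⁻¹ * ∑ n ∈ range L, ‖φ (g ^ n)‖ ^ 2 ≤ ε := by
  obtain ⟨c, hc, H⟩ := slow
  set δ1 : ℝ := min δ 1 with hδ1
  have hδ10 : 0 < δ1 := lt_min hδ one_pos
  have hδ11 : δ1 ≤ 1 := min_le_right _ _
  have hA : 1 ≤ 1 / δ1 := by rw [le_div_iff₀ hδ10]; linarith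
  set e : ℝ := min (ε / 2) 1 with he
  have he0 : 0 < e := lt_min (by positivity) one_pos
  have he1 : e ≤ 1 := min_le_right _ _
  have he2 : e ≤ ε / 2 := min_le_left _ _
  obtain ⟨N₀, hN₀, H⟩ := H (1 / δ1) (e ^ 2) hA (by positivity) (by nlinarith)
  obtain ⟨K, hK⟩ := exists_nat_ge (2 / ε)
  have hlim : Tendsto (fun P : ℕ => (P : ℝ) ^ δ1) atTop atTop :=
    (tendsto_rpow_atTop hδ10).comp tendsto_natCast_atTop_atTop
  obtain ⟨P₁, hP₁⟩ := eventually_atTop.1 (hlim.eventually_ge_atTop (N₀ : ℝ))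
  refine ⟨max P₁ (2 ^ K + 1), fun φ hφ g r hg P hP h1 hmin L hL => ?_⟩
  have hPP1 : P₁ ≤ P := (le_max_left _ _).trans hP
  have hKP : 2 ^ K < P := (le_max_right _ _).trans hP
  have hP1 : 1 ≤ P := by
    have := Nat.one_le_two_pow (n := K)
    omega
  have hPR : (1 : ℝ) ≤ P := by exact_mod_cast hP1
  obtain ⟨τ, S6, μ, D⟩ := data_of hs2 hs3 ht hG hφ.1.1 hφ.1.2.1 hφ.1.2.2
  have := D.prob
  obtain ⟨m, hm⟩ := D.pow hg
  have h1' : φ (τ (m * P)) = 1 := by rw [← hm]; exact h1
  have hmass := mass_le D hφ (m := m) (P := P) h1' (fun n hn1 hn => by rw [← hm]; exact hmin n hn1 hn)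
    hKP
  have hK1 : (0 : ℝ) < (K : ℝ) + 1 := by positivity
  have hfull := avg_full D (m := m) hP1 h1' (w := 1 / ((K : ℝ) + 1)) (fun y => by
    rw [le_div_iff₀ hK1, mul_comm]; exact hmass y)
  have hKε : 1 / ((K : ℝ) + 1) ≤ ε / 2 := by
    rw [div_le_iff₀ hK1]
    rw [div_le_iff₀ hε] at hK
    nlinarith
  have hfull' : (P : ℝ)⁻¹ * ∑ n ∈ range P, ‖φ (g ^ n)‖ ^ 2 ≤ ε / 2 := by
    have e1 : ∑ n ∈ range P, ‖φ (g ^ n)‖ ^ 2 = ∑ n ∈ range P, ‖φ (τ (m * n))‖ ^ 2 :=
      sum_congr rfl fun n _ => by rw [hm]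
    rw [e1]
    exact hfull.trans hKε
  rcases le_total P L with hPL | hPL
  · -- longer than a period
    have hper : ∀ n : ℕ, ‖φ (g ^ (n + P))‖ ^ 2 = ‖φ (g ^ n)‖ ^ 2 := by
      intro n
      have h5 : φ (g ^ (n + P)) = φ (g ^ n) := by
        rw [hm, hm, ← D.hμ, ← D.hμ]
        refine integral_congr_ae ?_
        have hae := ae_of_one (μ := μ) (n := m * P) (by rw [D.hμ, h1'])
        filter_upwards [hae] with x hx
        have h6 : m * ((n + P : ℕ) : ℤ) = m * n + m * P := by push_cast; ring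
        rw [h6, fourier_add]
        have h7 : (fourier (m * (P : ℤ)) x : ℂ) = 1 := by
          rw [fourier_apply, hx, AddCircle.toCircle_zero]; simp
        rw [h7, mul_one]
      rw [h5]
    refine (per_sum (a := fun n => ‖φ (g ^ n)‖ ^ 2) (fun n => by positivity) hP1 hper hPL).trans ?_
    linarith
  · -- shorter than a period
    have hLR : (P : ℝ) ^ δ1 ≤ L :=
      (Real.rpow_le_rpow_of_exponent_le hPR (min_le_left _ _)).trans hL
    have hLN : N₀ ≤ L := by
      have h5 : (N₀ : ℝ) ≤ L := (hP₁ P hPP1).trans hLR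
      exact_mod_cast h5
    have hL1 : 1 ≤ L := hN₀.trans hLN
    have hPL' : (P : ℝ) ≤ (L : ℝ) ^ (1 / δ1) := by
      have h5 : (P : ℝ) = ((P : ℝ) ^ δ1) ^ (1 / δ1) := by
        rw [← Real.rpow_mul (by positivity), mul_one_div, div_self hδ10.ne', Real.rpow_one]
      rw [h5]
      exact Real.rpow_le_rpow (by positivity) hLR (by positivity)
    have hk1 : ((1 : ℕ) : ℝ) ≤ (L : ℝ) ^ (c * e ^ 2 / (1 / δ1)) := by
      rw [Nat.cast_one]
      exact Real.one_le_rpow (by exact_mod_cast hL1) (by positivity)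
    have h5 := slow_sq hs2 hs3 ht hG H hφ.1.1 hφ.1.2.1 hφ.1.2.2 hg hLN hPL hPL' (k := 1) (z := 1)
      le_rfl hk1 (one_pow 1)
    have e1 : ∑ i ∈ range P, coef 1 L P i * (‖φ (g ^ i)‖ : ℂ) ^ 2 =
        (((L : ℝ)⁻¹ * ∑ n ∈ range L, ‖φ (g ^ n)‖ ^ 2 -
          (P : ℝ)⁻¹ * ∑ n ∈ range P, ‖φ (g ^ n)‖ ^ 2 : ℝ) : ℂ) := by
      have h6 : ∀ i ∈ range P, coef 1 L P i * (‖φ (g ^ i)‖ : ℂ) ^ 2 =
          (if i < L then (L : ℂ)⁻¹ * (‖φ (g ^ i)‖ : ℂ) ^ 2 else 0) -
            (P : ℂ)⁻¹ * (‖φ (g ^ i)‖ : ℂ) ^ 2 := by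
        intro i _
        unfold coef
        rw [one_pow, mul_one, sub_mul]
        congr 1
        split_ifs <;> simp
      rw [sum_congr rfl h6, sum_sub_distrib, ← mul_sum, ← sum_filter]
      have h7 : (range P).filter (fun i => i < L) = range L := by
        ext i
        simp only [mem_filter, mem_range]
        omega
      rw [h7, ← mul_sum]
      push_cast
      ring
    rw [e1, Complex.norm_real, Real.norm_eq_abs, sq_abs] at h5
    have h6 := abs_le_of_sq_le_sq h5 he0.le
    have h7 := (abs_le.1 (abs_le_of_sq_le_sq h5 he0.le)).2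
    linarith

end Pool.Agent.L7h48.TR
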