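import Pool.Agent.L7h48.TR.CommonB
import Pool.Agent.L7h48.TR.SlowExt

/-!
# Common parts: extreme traces, and the converse
-/

set_option autoImplicit false

open MeasureTheory Filter Topology Finset
open scoped ComplexOrder ComplexConjugate ENNReal NNReal

namespace Pool.Agent.L7h48.TR

open Pool.Agent.TH654.FC Pool.Agent.W763.Tr Pool.Agent.TH463.UQ Pool.Agent.R481.TraceErg
open Pool.Agent.R477.XQ (Ov main_iff)

section

variable {G : Subgroup (Equiv.Perm ℚ)} {τ τ' : ℤ → G} {φ ψ : G → ℂ} {S6 S6' : G}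
  {μ ν : Measure UnitAddCircle} {A : Subgroup G}
  (hA : ∀ h : G, h ∈ A ↔ ∃ r : ℚ, ∀ x : ℚ, (h : Equiv.Perm ℚ) x = x + r)

lemma ext_vol (D : Data G τ φ S6 μ) : ext G volume = reg G := by
  have m2 := mp_vol2 (p := 2) le_rfl
  have m3 := mp_vol2 (p := 3) (by norm_num)
  funext g
  unfold reg
  by_cases hg : ∃ r : ℚ, ∀ x : ℚ, (g : Equiv.Perm ℚ) x = x + r
  · obtain ⟨r, hr⟩ := hg
    obtain ⟨n, k, rfl⟩ := D.six hr
    rw [ext_trans m2 m3 hr, integral_fourier']
    by_cases hn : n = 0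
    · rw [if_pos hn, if_pos ((trans_one hr).2 hn)]
    · rw [if_neg hn, if_neg (fun h1 => hn ((trans_one hr).1 h1))]
  · rw [ext_other hg, if_neg]
    rintro rfl
    exact hg ⟨0, fun x => by simp⟩

/-- **An extreme trace which dominates a multiple of the regular trace is regular.** -/
theorem ext_dom (D : Data G τ φ S6 μ)
    (hext : φ ∈ Set.extremePoints ℝ {ψ : G → ℂ | ψ 1 = 1 ∧ (∀ g h : G, ψ (h * g * h⁻¹) = ψ g) ∧
        ∀ (s : Finset G) (c : G → ℂ), 0 ≤ ∑ i ∈ s, ∑ j ∈ s, star (c j) * c i * ψ (j⁻¹ * i)})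
    {c : ℝ≥0} (hc : 0 < c) {κ : Measure UnitAddCircle} [IsFiniteMeasure κ]
    (h : μ = κ + (c : ℝ≥0∞) • volume) : φ = reg G := by
  have := D.prob
  have hcne : (c : ℝ≥0∞) ≠ 0 := by exact_mod_cast hc.ne'
  have m2 := mp_rest h le_rfl D.mp2
  have m3 := mp_rest h (by norm_num) D.mp3
  -- the measure is not carried by finitely many points
  have hat : ∀ x, μ {x} = 0 := by
    rcases finite_or_atomless D hext with hfd | hat
    · exfalso
      obtain ⟨M, hM1, hM⟩ := exists_kernel D.hτ D.hμ D.h2 hfd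
      have hae := ae_of_one (μ := μ) (n := (M : ℤ) * 1) (by rw [D.hμ, hM])
      rw [mul_one] at hae
      have h1 : (volume : Measure UnitAddCircle) {x | ¬ (M : ℤ) • x = 0} = 0 := by
        have h2 := ae_iff.1 hae
        rw [h, Measure.add_apply, Measure.smul_apply, smul_eq_mul, add_eq_zero, mul_eq_zero] at h2
        exact h2.2.resolve_left hcne
      have h2 : ∫ x : UnitAddCircle, (fourier (M : ℤ) x : ℂ) = ∫ _ : UnitAddCircle, (1 : ℂ) := by
        refine integral_congr_ae ?_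
        have h3 : ∀ᵐ x : UnitAddCircle, (M : ℤ) • x = 0 := ae_iff.2 h1
        filter_upwards [h3] with x hx
        rw [fourier_apply, hx, AddCircle.toCircle_zero]
        simp
      rw [integral_fourier', if_neg (by omega)] at h2
      simp at h2
    · exact hat
  have hT : ∀ (ν : Measure UnitAddCircle) [IsProbabilityMeasure ν],
      MeasurePreserving (fun x : UnitAddCircle => 2 • x) ν ν →
      MeasurePreserving (fun x : UnitAddCircle => 3 • x) ν ν →
      ext G ν ∈ {ψ : G → ℂ | ψ 1 = 1 ∧ (∀ g h : G, ψ (h * g * h⁻¹) = ψ g) ∧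
        ∀ (s : Finset G) (c : G → ℂ), 0 ≤ ∑ i ∈ s, ∑ j ∈ s, star (c j) * c i * ψ (j⁻¹ * i)} :=
    fun ν _ n2 n3 => ⟨ext_one n2 n3, fun g h => ext_class n2 n3 D.hform g h, ext_pd n2 n3 D.hform⟩
  have hmass : κ.real Set.univ + c = 1 := by
    have h1 := congrArg (fun m : Measure UnitAddCircle => (m Set.univ).toReal) h
    simp only [measure_univ, Measure.add_apply, Measure.smul_apply, smul_eq_mul, mul_one,
      ENNReal.toReal_one] at h1
    rw [ENNReal.toReal_add (measure_ne_top _ _) ENNReal.coe_ne_top, ENNReal.coe_toReal] at h1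
    exact h1.symm
  have hvolT := hT volume (mp_vol2 le_rfl) (mp_vol2 (by norm_num))
  set s : ℝ := κ.real Set.univ with hs
  have hcR : (0 : ℝ) < c := by exact_mod_cast hc
  have hval : ∀ g : G, φ g = ∫ x, (0 : ℂ) ∂μ + ext G κ g + ((c : ℝ) : ℂ) * reg G g := by
    intro g
    rw [integral_zero, zero_add, ← ext_vol D]
    by_cases hg : ∃ r : ℚ, ∀ x : ℚ, (g : Equiv.Perm ℚ) x = x + r
    · obtain ⟨r, hr⟩ := hg
      obtain ⟨n, k, rfl⟩ := D.six hr
      rw [ext_trans m2 m3 hr, ext_trans (mp_vol2 le_rfl) (mp_vol2 (by norm_num)) hr,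
        phi_trans D.hτ D.hcl S6 D.hS6 _ n k hr, ← D.hμ, h,
        integral_add_measure (int_f n κ)]
      · rw [integral_smul_measure]
        simp
      · have : IsFiniteMeasure ((c : ℝ≥0∞) • (volume : Measure UnitAddCircle)) :=
          ⟨by rw [Measure.smul_apply, smul_eq_mul]
              exact ENNReal.mul_lt_top ENNReal.coe_lt_top (measure_lt_top _ _)⟩
        exact int_f n _
    · rw [ext_other hg, ext_other hg, mul_zero, add_zero]
      exact Pool.Agent.R481.TraceBT.vanish D hat g hg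
  have hs0 : 0 ≤ s := measureReal_nonneg
  rcases hs0.eq_or_lt with hs0 | hs0
  · -- the rest is zero
    have hκ0 : κ = 0 := by
      rw [← Measure.measure_univ_eq_zero]
      have h1 : (κ Set.univ).toReal = 0 := hs0.symm
      exact ((ENNReal.toReal_eq_zero_iff _).1 h1).resolve_right (measure_ne_top _ _)
    funext g
    have hc1 : (c : ℝ) = 1 := by rw [← hs0, zero_add] at hmass; exact hmass
    rw [hval g, hc1, integral_zero, zero_add]
    have h2 : ext G κ g = 0 := by
      by_cases hg : ∃ r : ℚ, ∀ x : ℚ, (g : Equiv.Perm ℚ) x = x + r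
      · obtain ⟨r, hr⟩ := hg
        obtain ⟨n, k, rfl⟩ := D.six hr
        rw [ext_trans m2 m3 hr, hκ0, integral_zero_measure]
      · rw [ext_other hg]
    rw [h2]
    simp
  · -- the rest is not zero
    set κ1 : Measure UnitAddCircle := (κ Set.univ)⁻¹ • κ with hκ1
    have hku : κ Set.univ ≠ 0 := by
      intro h1
      rw [hs, measureReal_def, h1] at hs0
      simp at hs0
    have p1 : IsProbabilityMeasure κ1 := ⟨by
      rw [hκ1, Measure.smul_apply, smul_eq_mul]
      exact ENNReal.inv_mul_cancel hku (measure_ne_top _ _)⟩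
    have q1 := m2.smul_measure (κ Set.univ)⁻¹
    have r1 := m3.smul_measure (κ Set.univ)⁻¹
    have hseg : φ ∈ openSegment ℝ (ext G volume) (ext G κ1) := by
      refine ⟨c, s, hcR, hs0, by linarith, ?_⟩
      funext g
      simp only [Pi.add_apply, Pi.smul_apply]
      rw [hval g, integral_zero, zero_add, ext_vol D, add_comm]
      congr 1
      by_cases hg : ∃ r : ℚ, ∀ x : ℚ, (g : Equiv.Perm ℚ) x = x + r
      · obtain ⟨r, hr⟩ := hg
        obtain ⟨n, k, rfl⟩ := D.six hr
        rw [ext_trans m2 m3 hr, ext_trans q1 r1 hr, integral_smul_measure, smul_smul,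
          ENNReal.toReal_inv]
        have h5 : s * (κ Set.univ).toReal⁻¹ = 1 := mul_inv_cancel₀ hs0.ne'
        rw [h5, one_smul]
      · rw [ext_other hg, ext_other hg, smul_zero]
    have h5 := hext.2 hvolT (hT κ1 q1 r1) hseg
    rw [← h5, ext_vol D]

lemma reg_pow {G : Subgroup (Equiv.Perm ℚ)} {h : G} (hh : ∃ r : ℚ, ∀ x : ℚ, (h : Equiv.Perm ℚ) x = x + r)
    {a : ℤ} (ha : a ≠ 0) : reg G (h ^ a) = reg G h := by
  obtain ⟨r, hr⟩ := hh
  unfold reg
  have h1 : h ^ a = 1 ↔ h = 1 := by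
    constructor
    · intro h1
      have h2 := Pool.Agent.R481.TraceFS.zpow_apply hr a 0
      rw [h1] at h2
      simp only [Subgroup.coe_one, Equiv.Perm.coe_one, id_eq, zero_add] at h2
      have h3 : r = 0 := by
        have h4 : (a : ℚ) ≠ 0 := by exact_mod_cast ha
        exact (mul_eq_zero.1 h2.symm).resolve_left h4
      apply Subtype.ext
      apply Equiv.ext
      intro x
      rw [hr, h3]
      simp
    · rintro rfl
      exact one_zpow a
  by_cases h2 : h = 1
  · rw [if_pos h2, if_pos (h1.2 h2)]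
  · rw [if_neg h2, if_neg (fun h3 => h2 (h1.1 h3))]

lemma pd_reg {G : Subgroup (Equiv.Perm ℚ)} {A : Subgroup G} {d : ℝ} (hd : 0 ≤ d) :
    PD (fun h : A => (d : ℂ) * reg G h) := by
  classical
  intro s w
  have h1 : ∀ i ∈ s, ∑ j ∈ s, star (w j) * w i * ((d : ℂ) * reg G ((j⁻¹ * i : A) : G)) =
      (d : ℂ) * (star (w i) * w i) := by
    intro i hi
    rw [sum_eq_single_of_mem i hi]
    · rw [inv_mul_cancel, Subgroup.coe_one]
      unfold reg
      rw [if_pos rfl]
      ring
    · intro j _ hji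
      unfold reg
      rw [if_neg, mul_zero, mul_zero]
      intro h2
      apply hji
      have h3 : (j⁻¹ * i : A) = 1 := Subtype.ext h2
      exact (inv_mul_eq_one.1 h3)
  refine le_of_le_of_eq ?_ (sum_congr rfl h1).symm
  refine sum_nonneg fun i _ => ?_
  refine mul_nonneg (by exact_mod_cast hd) ?_
  exact star_mul_self_nonneg _

lemma pd_char {H : Type} [Group H] {f : H → ℂ} (hf : PD f) (χ : H →* Circle) :
    PD (fun h => (χ h : ℂ) * f h) := by
  intro s w
  refine le_of_le_of_eq (hf s (fun i => (χ i : ℂ) * w i)) ?_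
  refine sum_congr rfl fun i _ => sum_congr rfl fun j _ => ?_
  have h1 : ((χ (j⁻¹ * i) : Circle) : ℂ) = star (χ j : ℂ) * (χ i : ℂ) := by
    rw [map_mul, map_inv, Circle.coe_mul, Circle.coe_inv_eq_conj]
    rfl
  show star ((χ j : ℂ) * w j) * ((χ i : ℂ) * w i) * f (j⁻¹ * i) =
    star (w j) * w i * (((χ (j⁻¹ * i) : Circle) : ℂ) * f (j⁻¹ * i))
  rw [h1, star_mul']
  ring

/-- exchanging the two traces -/
lemma Comm.symm {G : Subgroup (Equiv.Perm ℚ)} {A : Subgroup G} {a b : ℤ} {c : ℝ} {φ ψ : G → ℂ}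
    {χ : A →* Circle} (h : Comm A a b c φ ψ χ) : Comm A b a c ψ φ χ⁻¹ := by
  obtain ⟨η, h1, h2, h3, h4⟩ := h
  refine ⟨fun h => (χ⁻¹ h : ℂ) * η h, ?_, pd_char h2 χ⁻¹, ?_, ?_⟩
  · show ((χ⁻¹ 1 : Circle) : ℂ) * η 1 = c
    rw [map_one, h1]; simp
  · have h5 := pd_char h4 χ⁻¹
    have h6 : (fun h : A => ((χ⁻¹ h : Circle) : ℂ) * ((χ h : ℂ) * ψ ((h : G) ^ b) - η h)) =
        fun h : A => ψ ((h : G) ^ b) - ((χ⁻¹ h : Circle) : ℂ) * η h := by
      funext h
      have h7 : ((χ⁻¹ h : Circle) : ℂ) * (χ h : ℂ) = 1 := by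
        rw [← Circle.coe_mul, MonoidHom.inv_apply, inv_mul_cancel, Circle.coe_one]
      rw [mul_sub, ← mul_assoc, h7, one_mul]
    rwa [h6] at h5
  · have h5 := pd_char h3 χ⁻¹
    have h6 : (fun h : A => ((χ⁻¹ h : Circle) : ℂ) * (φ ((h : G) ^ a) - η h)) =
        fun h : A => ((χ⁻¹ h : Circle) : ℂ) * φ ((h : G) ^ a) - ((χ⁻¹ h : Circle) : ℂ) * η h := by
      funext h
      rw [mul_sub]
    rwa [h6] at h5

include hA in
/-- **Domination: every character admits a common part with the regular trace.** -/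
lemma comm_of_dom (D : Data G τ φ S6 μ) {c : ℝ≥0}
    (h : PD (fun h : A => φ h - ((c : ℝ) : ℂ) * reg G h)) {a b : ℤ} (ha : a ≠ 0) (hb : b ≠ 0)
    (χ : A →* Circle) : Comm A a b c φ (reg G) χ := by
  have hc1 : (c : ℝ) ≤ 1 := by
    have h1 := h {1} (fun _ => 1)
    simp only [sum_singleton, star_one, one_mul, inv_one, Subgroup.coe_one, D.h1] at h1
    have h2 : reg G 1 = 1 := by unfold reg; rw [if_pos rfl]
    rw [h2, mul_one, sub_nonneg] at h1
    exact_mod_cast h1
  have hcomm : ∀ i j : A, i * j = j * i := by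
    intro i j
    obtain ⟨r, hr⟩ := (hA i).1 i.2
    obtain ⟨r', hr'⟩ := (hA j).1 j.2
    apply Subtype.ext
    apply Subtype.ext
    apply Equiv.ext
    intro x
    change ((i : G) : Equiv.Perm ℚ) (((j : G) : Equiv.Perm ℚ) x) =
      ((j : G) : Equiv.Perm ℚ) (((i : G) : Equiv.Perm ℚ) x)
    rw [hr, hr', hr', hr]
    ring
  refine ⟨fun h => ((c : ℝ) : ℂ) * reg G h, ?_, pd_reg c.2, ?_, ?_⟩
  · show ((c : ℝ) : ℂ) * reg G ((1 : A) : G) = _
    rw [Subgroup.coe_one]
    unfold reg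
    rw [if_pos rfl, mul_one]
  · intro s w
    refine le_of_le_of_eq (h.family s (fun i => i ^ a) w) ?_
    refine sum_congr rfl fun i _ => sum_congr rfl fun j _ => ?_
    have h1 : (j ^ a)⁻¹ * i ^ a = (j⁻¹ * i) ^ a := by
      have h2 : Commute j⁻¹ i := (hcomm j⁻¹ i)
      rw [h2.mul_zpow, inv_zpow]
    show _ = star (w j) * w i * (φ (((j⁻¹ * i : A) : G) ^ a) - ((c : ℝ) : ℂ) *
      reg G ((j⁻¹ * i : A) : G))
    rw [h1, Subgroup.coe_zpow, reg_pow ((hA _).1 (j⁻¹ * i).2) ha]
  · have h1 : (fun h : A => (χ h : ℂ) * reg G ((h : G) ^ b) - ((c : ℝ) : ℂ) * reg G h) =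
        fun h : A => ((1 - c : ℝ) : ℂ) * reg G h := by
      funext h
      rw [reg_pow ((hA _).1 h.2) hb]
      unfold reg
      by_cases h2 : (h : G) = 1
      · have h3 : h = 1 := Subtype.ext h2
        rw [if_pos h2, h3, map_one]
        push_cast
        ring
      · rw [if_neg h2]
        ring
    rw [h1]
    exact pd_reg (by linarith)

include hA in
/-- infinitely many characters -/
lemma inf_char (D : Data G τ φ S6 μ) : Infinite (A →* Circle) := by
  obtain ⟨e, he, -, -⟩ := exists_roots hA D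
  have h0 : ∀ h : A, ∀ x : ℚ, ((h : G) : Equiv.Perm ℚ) x = x + ((h : G) : Equiv.Perm ℚ) 0 := by
    intro h x
    obtain ⟨r, hr⟩ := (hA h).1 h.2
    rw [hr, hr, zero_add]
  let f : ℝ → (A →* Circle) := fun t =>
    { toFun := fun h => Circle.exp (t * ((((h : G) : Equiv.Perm ℚ) 0 : ℚ) : ℝ))
      map_one' := by simp
      map_mul' := by
        intro h k
        have h1 : (((h * k : A) : G) : Equiv.Perm ℚ) 0 =
            ((h : G) : Equiv.Perm ℚ) 0 + ((k : G) : Equiv.Perm ℚ) 0 := by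
          change ((h : G) : Equiv.Perm ℚ) (((k : G) : Equiv.Perm ℚ) 0) = _
          rw [h0 h, add_comm]
        rw [h1, ← Circle.exp_add]
        congr 1
        push_cast
        ring }
  have hinj : Set.InjOn f (Set.Icc (0 : ℝ) 1) := by
    intro t ht t' ht' hff
    have h1 : f t (e 0) = f t' (e 0) := by rw [hff]
    have h2 : ((e 0 : G) : Equiv.Perm ℚ) 0 = 1 := by rw [he]; norm_num
    change Circle.exp (t * ((((e 0 : A) : G) : Equiv.Perm ℚ) 0 : ℚ)) =
      Circle.exp (t' * ((((e 0 : A) : G) : Equiv.Perm ℚ) 0 : ℚ)) at h1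
    rw [h2] at h1
    simp only [Rat.cast_one, mul_one] at h1
    exact Circle.exp_injOn_Icc (by linarith [Real.pi_gt_three]) ht ht' h1
  have h3 : (Set.Icc (0 : ℝ) 1).Infinite := Set.Icc_infinite one_pos
  exact Set.infinite_univ_iff.1 ((h3.image hinj).mono (Set.subset_univ _))

end

end Pool.Agent.L7h48.TR
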