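import Pool.Agent.Y314.FD.Final
import Pool.Agent.L7h48.TR.CommonC

/-!
# The empirical measures along the integers `2 ^ i * 3 ^ j`, and traces
-/

set_option autoImplicit false

open MeasureTheory Filter Topology
open scoped ComplexOrder ComplexConjugate ENNReal NNReal

namespace Pool.Agent.L7h48.TR

open Pool.Agent.W764.FB Pool.Agent.W764.SH Pool.Agent.W764.HL
open Pool.Agent.Y314.FD (tri mem_tri mul freq freq_eq tri_card_pos sum_translate hit)

/-- balls determine domination -/
lemma le_of_balls {μ : Measure UnitAddCircle} [IsFiniteMeasure μ] {c : ℝ≥0}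
    (h : ∀ (x : UnitAddCircle) (r : ℝ), 0 < r → r ≤ 1 / 2 →
      (c : ℝ) * (2 * r) ≤ μ.real (Metric.closedBall x r)) :
    (c : ℝ≥0∞) • volume ≤ μ := by
  refine Measure.le_iff'.2 fun s => ?_
  refine (IsUnifLocDoublingMeasure.vitaliFamily (volume : Measure UnitAddCircle)
    1).measure_le_of_frequently_le μ (ρ := (c : ℝ≥0∞) • volume)
    (Measure.smul_absolutelyContinuous) s (fun x _ => ?_)
  have hδ : Tendsto (fun j : ℕ => (1 : ℝ) / ((j : ℝ) + 1)) atTop (𝓝[>] 0) := by
    rw [tendsto_nhdsWithin_iff]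
    exact ⟨tendsto_one_div_add_atTop_nhds_zero_nat, Eventually.of_forall fun j => by
      show (0 : ℝ) < _
      positivity⟩
  have h1 := IsUnifLocDoublingMeasure.tendsto_closedBall_filterAt
    (μ := (volume : Measure UnitAddCircle)) (K := 1) (x := x) (l := atTop)
    (fun _ : ℕ => x) (fun j : ℕ => (1 : ℝ) / ((j : ℝ) + 1)) hδ
    (Eventually.of_forall fun j => Metric.mem_closedBall_self (by positivity))
  refine h1.frequently (Eventually.frequently ?_)
  filter_upwards [eventually_ge_atTop 1] with j hj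
  have hj1 : (1 : ℝ) ≤ j := by exact_mod_cast hj
  have hr0 : (0 : ℝ) < 1 / ((j : ℝ) + 1) := by positivity
  have hr1 : (1 : ℝ) / ((j : ℝ) + 1) ≤ 1 / 2 := by
    apply one_div_le_one_div_of_le (by norm_num)
    linarith
  have h2 := h x _ hr0 hr1
  rw [Measure.smul_apply, smul_eq_mul, AddCircle.volume_closedBall, ← ofReal_measureReal]
  have h3 : min 1 (2 * (1 / ((j : ℝ) + 1))) = 2 * (1 / ((j : ℝ) + 1)) := by
    apply min_eq_right
    linarith
  rw [h3, ← ENNReal.ofReal_coe_nnreal, ← ENNReal.ofReal_mul (NNReal.coe_nonneg c)]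
  exact ENNReal.ofReal_le_ofReal h2

/-- the empirical measure -/
noncomputable def emp (N : ℕ) (x : UnitAddCircle) : Measure UnitAddCircle :=
  ((tri 2 3 N).card : ℝ≥0∞)⁻¹ • ∑ u ∈ tri 2 3 N, Measure.dirac (mul 2 3 u • x)

lemma tri_ne {N : ℕ} (hN : 1 ≤ N) : (tri 2 3 N).card ≠ 0 := by
  have := tri_card_pos (p := 2) (q := 3) le_rfl (by norm_num) hN
  intro h
  rw [h] at this
  simp at this

lemma emp_prob {N : ℕ} (hN : 1 ≤ N) (x : UnitAddCircle) : IsProbabilityMeasure (emp N x) := by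
  refine ⟨?_⟩
  unfold emp
  rw [Measure.smul_apply, Measure.finsetSum_apply, smul_eq_mul]
  simp only [measure_univ, Finset.sum_const, nsmul_eq_mul, mul_one]
  exact ENNReal.inv_mul_cancel (by exact_mod_cast tri_ne hN) (ENNReal.natCast_ne_top _)

lemma emp_int (N : ℕ) (x : UnitAddCircle) (f : UnitAddCircle → ℂ) :
    ∫ z, f z ∂(emp N x) = ((tri 2 3 N).card : ℂ)⁻¹ * ∑ u ∈ tri 2 3 N, f (mul 2 3 u • x) := by
  unfold emp
  rw [integral_smul_measure, integral_finsetSum_measure fun n _ =>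
    (integrable_dirac (by simp))]
  simp only [integral_dirac, ENNReal.toReal_inv, ENNReal.toReal_natCast, Complex.real_smul]
  push_cast
  rfl

lemma emp_ball (N : ℕ) (x c : UnitAddCircle) (r : ℝ) :
    (emp N x).real (Metric.closedBall c r) = freq 2 3 N x c r := by
  classical
  rw [freq_eq le_rfl (by norm_num) (by norm_num), measureReal_def]
  unfold emp
  rw [Measure.smul_apply, Measure.finsetSum_apply, smul_eq_mul, ENNReal.toReal_mul,
    ENNReal.toReal_inv, ENNReal.toReal_natCast, div_eq_inv_mul]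
  congr 1
  unfold hit
  rw [ENNReal.toReal_sum fun n _ => measure_ne_top _ _, Finset.card_filter]
  push_cast
  refine Finset.sum_congr rfl fun u _ => ?_
  rw [Measure.dirac_apply' _ Metric.isClosed_closedBall.measurableSet]
  by_cases h : ‖mul 2 3 u • x - c‖ ≤ r
  · rw [Set.indicator_of_mem (by rw [Metric.mem_closedBall, dist_eq_norm]; exact h), if_pos h]
    simp
  · rw [Set.indicator_of_notMem (by rw [Metric.mem_closedBall, dist_eq_norm]; exact h), if_neg h]
    simp

/-- the size of the triangle -/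
noncomputable def qs (N : ℕ) : ℕ := Nat.log 3 N / 2 + 1

lemma card_ge {N : ℕ} (hN : 1 ≤ N) : qs N * qs N ≤ (tri 2 3 N).card := by
  have h1 : (Finset.range (qs N) ×ˢ Finset.range (qs N)) ⊆ tri 2 3 N := by
    intro u hu
    rw [Finset.mem_product, Finset.mem_range, Finset.mem_range] at hu
    rw [mem_tri le_rfl (by norm_num)]
    unfold mul
    unfold qs at hu
    calc 2 ^ u.1 * 3 ^ u.2 ≤ 3 ^ u.1 * 3 ^ u.2 := by gcongr; norm_num
      _ = 3 ^ (u.1 + u.2) := (pow_add _ _ _).symm
      _ ≤ 3 ^ Nat.log 3 N := Nat.pow_le_pow_right (by norm_num) (by omega)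
      _ ≤ N := Nat.pow_log_le_self 3 (by omega)
  have h2 := Finset.card_le_card h1
  rwa [Finset.card_product, Finset.card_range] at h2

lemma bd_one {N : ℕ} (_hN : 1 ≤ N) :
    ((tri 2 3 N).filter fun u => u + (1, 0) ∉ tri 2 3 N).card ≤ 4 * qs N := by
  have h1 : ((tri 2 3 N).filter fun u => u + (1, 0) ∉ tri 2 3 N).card ≤
      (Finset.range (Nat.log 3 N + 1)).card := by
    refine Finset.card_le_card_of_injOn (fun u => u.2) ?_ ?_
    · intro u hu
      rw [Finset.mem_coe, Finset.mem_filter, mem_tri le_rfl (by norm_num)] at hu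
      rw [Finset.mem_coe, Finset.mem_range, Nat.lt_succ_iff]
      refine Nat.le_log_of_pow_le (by norm_num) (le_trans ?_ hu.1)
      unfold mul
      exact Nat.le_mul_of_pos_left _ (by positivity)
    · intro u hu v hv huv
      rw [Finset.mem_coe, Finset.mem_filter, mem_tri le_rfl (by norm_num),
        mem_tri le_rfl (by norm_num)] at hu hv
      have huv : u.2 = v.2 := huv
      have key : ∀ a b : ℕ × ℕ, a.2 = b.2 → mul 2 3 b ≤ N → ¬ mul 2 3 (a + (1, 0)) ≤ N → b.1 ≤ a.1 := by
        intro a b hab hb ha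
        by_contra hlt
        apply ha
        refine le_trans ?_ hb
        unfold mul
        simp only [Prod.fst_add, Prod.snd_add, add_zero]
        rw [hab]
        gcongr
        · norm_num
        · omega
      have e1 := key u v huv hv.1 hu.2
      have e2 := key v u huv.symm hu.1 hv.2
      exact Prod.ext (le_antisymm e2 e1) huv
  rw [Finset.card_range] at h1
  unfold qs
  omega

lemma bd_two {N : ℕ} (hN : 1 ≤ N) :
    ((tri 2 3 N).filter fun u => u + (0, 1) ∉ tri 2 3 N).card ≤ 4 * qs N := by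
  have h1 : ((tri 2 3 N).filter fun u => u + (0, 1) ∉ tri 2 3 N).card ≤
      (Finset.range (Nat.log 2 N + 1)).card := by
    refine Finset.card_le_card_of_injOn (fun u => u.1) ?_ ?_
    · intro u hu
      rw [Finset.mem_coe, Finset.mem_filter, mem_tri le_rfl (by norm_num)] at hu
      rw [Finset.mem_coe, Finset.mem_range, Nat.lt_succ_iff]
      refine Nat.le_log_of_pow_le (by norm_num) (le_trans ?_ hu.1)
      unfold mul
      exact Nat.le_mul_of_pos_right _ (by positivity)
    · intro u hu v hv huv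
      rw [Finset.mem_coe, Finset.mem_filter, mem_tri le_rfl (by norm_num),
        mem_tri le_rfl (by norm_num)] at hu hv
      have huv : u.1 = v.1 := huv
      have key : ∀ a b : ℕ × ℕ, a.1 = b.1 → mul 2 3 b ≤ N → ¬ mul 2 3 (a + (0, 1)) ≤ N → b.2 ≤ a.2 := by
        intro a b hab hb ha
        by_contra hlt
        apply ha
        refine le_trans ?_ hb
        unfold mul
        simp only [Prod.fst_add, Prod.snd_add, add_zero]
        rw [hab]
        gcongr
        · norm_num
        · omega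
      have e1 := key u v huv hv.1 hu.2
      have e2 := key v u huv.symm hu.1 hv.2
      exact Prod.ext huv (le_antisymm e2 e1)
  rw [Finset.card_range] at h1
  have h2 : Nat.log 2 N < 2 * Nat.log 3 N + 2 := by
    have h3 : N < 3 ^ (Nat.log 3 N + 1) := Nat.lt_pow_succ_log_self (by norm_num) N
    have h4 : 3 ^ (Nat.log 3 N + 1) ≤ 2 ^ (2 * Nat.log 3 N + 2) := by
      calc 3 ^ (Nat.log 3 N + 1) ≤ 4 ^ (Nat.log 3 N + 1) := Nat.pow_le_pow_left (by norm_num) _
        _ = 2 ^ (2 * Nat.log 3 N + 2) := by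
          rw [show (4 : ℕ) = 2 ^ 2 by norm_num, ← pow_mul]
          congr 1
    exact Nat.log_lt_of_lt_pow (by omega) (h3.trans_le h4)
  unfold qs
  omega

/-- the averages over the triangle are nearly invariant -/
lemma avg_inv {N : ℕ} (hN : 1 ≤ N) {e : ℕ × ℕ}
    (he : ((tri 2 3 N).filter fun u => u + e ∉ tri 2 3 N).card ≤ 4 * qs N) {f : ℕ × ℕ → ℂ}
    (hf : ∀ u, ‖f u‖ ≤ 1) :
    ‖((tri 2 3 N).card : ℂ)⁻¹ * ∑ u ∈ tri 2 3 N, f (u + e) -
      ((tri 2 3 N).card : ℂ)⁻¹ * ∑ u ∈ tri 2 3 N, f u‖ ≤ 16 / (qs N : ℝ) := by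
  have hq : (1 : ℝ) ≤ qs N := by
    have : 1 ≤ qs N := by unfold qs; omega
    exact_mod_cast this
  have hc : (qs N : ℝ) * qs N ≤ (tri 2 3 N).card := by exact_mod_cast card_ge hN
  have hc0 : (0 : ℝ) < (tri 2 3 N).card := by nlinarith
  have he' : (((tri 2 3 N).filter fun u => u + e ∉ tri 2 3 N).card : ℝ) ≤ 4 * qs N := by
    exact_mod_cast he
  have h1 := sum_translate (U := tri 2 3 N) (e := e) (fun u => (f u).re)
    (fun u => (Complex.abs_re_le_norm _).trans (hf u))
  have h2 := sum_translate (U := tri 2 3 N) (e := e) (fun u => (f u).im)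
    (fun u => (Complex.abs_im_le_norm _).trans (hf u))
  rw [← mul_sub, norm_mul, norm_inv, Complex.norm_natCast]
  set S : ℂ := ∑ u ∈ tri 2 3 N, f (u + e) - ∑ u ∈ tri 2 3 N, f u with hS
  have h3 : S.re = ∑ u ∈ tri 2 3 N, (f (u + e)).re - ∑ u ∈ tri 2 3 N, (f u).re := by
    rw [hS, Complex.sub_re, Complex.re_sum, Complex.re_sum]
  have h4 : S.im = ∑ u ∈ tri 2 3 N, (f (u + e)).im - ∑ u ∈ tri 2 3 N, (f u).im := by
    rw [hS, Complex.sub_im, Complex.im_sum, Complex.im_sum]
  have h5 : ‖S‖ ≤ 16 * qs N := by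
    refine (Complex.norm_le_abs_re_add_abs_im S).trans ?_
    rw [h3, h4]
    linarith
  have hq0 : (0 : ℝ) < qs N := by linarith
  calc ((tri 2 3 N).card : ℝ)⁻¹ * ‖S‖ ≤ ((tri 2 3 N).card : ℝ)⁻¹ * (16 * qs N) := by gcongr
    _ ≤ ((qs N : ℝ) * qs N)⁻¹ * (16 * qs N) := by gcongr
    _ = 16 / (qs N : ℝ) := by field_simp

lemma qs_tendsto : Tendsto (fun N : ℕ => (16 : ℝ) / (qs N : ℝ)) atTop (𝓝 0) := by
  have h1 : Tendsto (fun N : ℕ => (qs N : ℝ)) atTop atTop := by
    rw [tendsto_natCast_atTop_iff]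
    refine tendsto_atTop.2 fun b => ?_
    filter_upwards [eventually_ge_atTop (3 ^ (2 * b))] with N hN
    have h2 : 2 * b ≤ Nat.log 3 N := Nat.le_log_of_pow_le (by norm_num) hN
    unfold qs
    omega
  exact Tendsto.div_atTop tendsto_const_nhds h1

/-- **Limits of the empirical measures are invariant.** -/
lemma lim_inv {x : UnitAddCircle} {N : ℕ → ℕ} (hN1 : ∀ k, 1 ≤ N k) (hN : Tendsto N atTop atTop)
    {c : ℤ → ℂ} (hc : ∀ m : ℤ, Tendsto (fun k => ∫ z, (fourier m z : ℂ) ∂(emp (N k) x)) atTop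
      (𝓝 (c m))) (m : ℤ) : c (m * 2) = c m ∧ c (m * 3) = c m := by
  have key : ∀ (e : ℕ × ℕ) (d : ℕ), (∀ u, mul 2 3 (u + e) = mul 2 3 u * d) →
      (∀ k, ((tri 2 3 (N k)).filter fun u => u + e ∉ tri 2 3 (N k)).card ≤ 4 * qs (N k)) →
      c (m * d) = c m := by
    intro e d hd hb
    have h1 := (hc (m * d)).sub (hc m)
    have h2 : Tendsto (fun k => ∫ z, (fourier (m * d) z : ℂ) ∂(emp (N k) x) -
        ∫ z, (fourier m z : ℂ) ∂(emp (N k) x)) atTop (𝓝 0) := by
      refine squeeze_zero_norm (fun k => ?_) (qs_tendsto.comp hN)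
      rw [emp_int, emp_int]
      have h3 := avg_inv (hN1 k) (hb k) (f := fun u => (fourier m (mul 2 3 u • x) : ℂ))
        (fun u => by rw [fourier_apply, Circle.norm_coe])
      refine le_trans (le_of_eq ?_) h3
      congr 3
      refine Finset.sum_congr rfl fun u _ => ?_
      rw [hd, fourier_apply, fourier_apply]
      congr 2
      rw [mul_smul, mul_smul, natCast_zsmul, smul_comm (mul 2 3 u) d x]
    exact sub_eq_zero.1 (tendsto_nhds_unique h1 h2)
  refine ⟨?_, ?_⟩
  · exact_mod_cast key (1, 0) 2 (fun u => by unfold mul; simp only [Prod.fst_add, Prod.snd_add]; ring)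
      (fun k => bd_one (hN1 k))
  · exact_mod_cast key (0, 1) 3 (fun u => by unfold mul; simp only [Prod.fst_add, Prod.snd_add]; ring)
      (fun k => bd_two (hN1 k))

open Classical in
/-- the integers `2 ^ i * 3 ^ j` up to `N` -/
noncomputable def smooth (N : ℕ) : Finset ℕ :=
  (Finset.range (N + 1)).filter fun n => ∃ i j : ℕ, n = 2 ^ i * 3 ^ j

/-- the averages of the characters -/
noncomputable def avg (N : ℕ) (x : UnitAddCircle) (m : ℤ) : ℂ :=
  (∑ n ∈ smooth N, (fourier m (n • x) : ℂ)) / (smooth N).card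

lemma smooth_eq (N : ℕ) : smooth N = (tri 2 3 N).image (mul 2 3) := by
  classical
  ext n
  unfold smooth
  rw [Finset.mem_filter, Finset.mem_range, Finset.mem_image]
  constructor
  · rintro ⟨h1, i, j, h2⟩
    refine ⟨(i, j), ?_, ?_⟩
    · rw [mem_tri le_rfl (by norm_num)]
      unfold mul
      simp only
      omega
    · unfold mul; rw [h2]
  · rintro ⟨u, hu, rfl⟩
    rw [mem_tri le_rfl (by norm_num)] at hu
    exact ⟨by omega, u.1, u.2, rfl⟩

lemma avg_eq (N : ℕ) (x : UnitAddCircle) (m : ℤ) :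
    avg N x m = ∫ z, (fourier m z : ℂ) ∂(emp N x) := by
  have hinj : Function.Injective (mul 2 3) :=
    pow_mul_inj le_rfl (by norm_num)
      (irr_of_coprime le_rfl (by norm_num) (by norm_num))
  unfold avg
  rw [emp_int, smooth_eq, Finset.sum_image hinj.injOn, Finset.card_image_of_injective _ hinj,
    div_eq_inv_mul]

section

open Pool.Agent.TH654.FC Pool.Agent.W763.Tr Pool.Agent.R481.TraceErg

/-- the tracial states -/
def TS (G : Subgroup (Equiv.Perm ℚ)) : Set (G → ℂ) :=
  {ψ | ψ 1 = 1 ∧ (∀ g h : G, ψ (h * g * h⁻¹) = ψ g) ∧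
    ∀ (s : Finset G) (c : G → ℂ), 0 ≤ ∑ i ∈ s, ∑ j ∈ s, star (c j) * c i * ψ (j⁻¹ * i)}

/-- the averages of the characters along the orbit of `x` accumulate at the trace -/
def Lead {G : Subgroup (Equiv.Perm ℚ)} (x : UnitAddCircle) (φ : G → ℂ) : Prop :=
  ∃ N : ℕ → ℕ, StrictMono N ∧ ∀ (m : ℤ) (g : G), (∀ y : ℚ, (g : Equiv.Perm ℚ) y = y + m) →
    Tendsto (fun k => avg (N k) x m) atTop (𝓝 (φ g))

lemma ext_TS {s2 s3 t : Equiv.Perm ℚ} (hs2 : ∀ x, s2 x = 2 * x) (hs3 : ∀ x, s3 x = 3 * x)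
    (ht : ∀ x, t x = x + 1) {G : Subgroup (Equiv.Perm ℚ)} (hG : G = Subgroup.closure {s2, s3, t})
    {ν : Measure UnitAddCircle} [IsProbabilityMeasure ν]
    (n2 : MeasurePreserving (fun x : UnitAddCircle => 2 • x) ν ν)
    (n3 : MeasurePreserving (fun x : UnitAddCircle => 3 • x) ν ν) : ext G ν ∈ TS G := by
  have hform : Form G := fun g => form hs2 hs3 ht g (by rw [← hG]; exact g.2)
  exact ⟨ext_one n2 n3, fun g h => ext_class n2 n3 hform g h, ext_pd n2 n3 hform⟩

/-- weak convergence of a subsequence of the empirical measures -/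
lemma exists_sub (x : UnitAddCircle) (N : ℕ → ℕ) (hN : StrictMono N) :
    ∃ (κ : ℕ → ℕ) (μ : ProbabilityMeasure UnitAddCircle)
      (P : ℕ → ProbabilityMeasure UnitAddCircle), StrictMono κ ∧ (∀ k, 1 ≤ N (κ k)) ∧
      (∀ k, (P k : Measure UnitAddCircle) = emp (N (κ k)) x) ∧ Tendsto P atTop (𝓝 μ) := by
  have h1 : ∀ k, 1 ≤ N (k + 1) := fun k => by
    have := hN.id_le (k + 1)
    simp only [id_eq] at this
    omega
  set Q : ℕ → ProbabilityMeasure UnitAddCircle := fun k =>
    ⟨emp (N (k + 1)) x, emp_prob (h1 k) x⟩ with hQ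
  obtain ⟨μ, κ, hκ, hlim⟩ := CompactSpace.tendsto_subseq Q
  exact ⟨fun k => κ k + 1, μ, fun k => Q (κ k), fun a b hab => Nat.add_lt_add_right (hκ hab) 1,
    fun k => h1 (κ k), fun k => rfl, hlim⟩

lemma tendsto_coeff {μ : ProbabilityMeasure UnitAddCircle}
    {P : ℕ → ProbabilityMeasure UnitAddCircle} (h : Tendsto P atTop (𝓝 μ)) (m : ℤ) :
    Tendsto (fun k => ∫ z, (fourier m z : ℂ) ∂(P k : Measure UnitAddCircle)) atTop
      (𝓝 (∫ z, (fourier m z : ℂ) ∂(μ : Measure UnitAddCircle))) := by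
  rw [ProbabilityMeasure.tendsto_iff_forall_integral_rclike_tendsto ℂ] at h
  have h1 := h (BoundedContinuousFunction.mkOfCompact (fourier m))
  simpa only [BoundedContinuousFunction.mkOfCompact_apply] using h1

/-- the limits are invariant -/
lemma lim_mp {x : UnitAddCircle} {N : ℕ → ℕ} (hN1 : ∀ k, 1 ≤ N k) (hN : Tendsto N atTop atTop)
    {μ : ProbabilityMeasure UnitAddCircle} {P : ℕ → ProbabilityMeasure UnitAddCircle}
    (hP : ∀ k, (P k : Measure UnitAddCircle) = emp (N k) x) (h : Tendsto P atTop (𝓝 μ)) :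
    MeasurePreserving (fun x : UnitAddCircle => 2 • x) (μ : Measure UnitAddCircle) μ ∧
    MeasurePreserving (fun x : UnitAddCircle => 3 • x) (μ : Measure UnitAddCircle) μ := by
  have hc : ∀ m : ℤ, Tendsto (fun k => ∫ z, (fourier m z : ℂ) ∂(emp (N k) x)) atTop
      (𝓝 (∫ z, (fourier m z : ℂ) ∂(μ : Measure UnitAddCircle))) := by
    intro m
    refine (tendsto_coeff h m).congr fun k => ?_
    rw [hP]
  have h1 := lim_inv hN1 hN hc
  exact ⟨mp_nsmul (c := fun m => ∫ z, (fourier m z : ℂ) ∂(μ : Measure UnitAddCircle))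
      (fun _ => rfl) (fun n => (h1 n).1),
    mp_nsmul (c := fun m => ∫ z, (fourier m z : ℂ) ∂(μ : Measure UnitAddCircle))
      (fun _ => rfl) (fun n => (h1 n).2)⟩

/-- **The points leading to a trace which does not dominate `c` times the regular trace.** -/
theorem lead_iff {s2 s3 t : Equiv.Perm ℚ} (hs2 : ∀ x, s2 x = 2 * x) (hs3 : ∀ x, s3 x = 3 * x)
    (ht : ∀ x, t x = x + 1) {G : Subgroup (Equiv.Perm ℚ)} (hG : G = Subgroup.closure {s2, s3, t})
    {A : Subgroup G} (hA : ∀ h : G, h ∈ A ↔ ∃ r : ℚ, ∀ x : ℚ, (h : Equiv.Perm ℚ) x = x + r)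
    (c : ℝ≥0) (x : UnitAddCircle) :
    (∃ φ ∈ TS G, Lead x φ ∧ ¬ PD (fun h : A => φ h - ((c : ℝ) : ℂ) * reg G h)) ↔
    ∃ (y : UnitAddCircle) (r : ℝ), 0 < r ∧ r ≤ 1 / 2 ∧
      liminf (fun N : ℕ => freq 2 3 N x y r) atTop < c * (2 * r) := by
  constructor
  · rintro ⟨φ, hφ, ⟨N, hN, hlim⟩, hnot⟩
    obtain ⟨τ, S6, μ, D⟩ := data_of hs2 hs3 ht hG hφ.1 hφ.2.1 hφ.2.2
    have := D.prob
    obtain ⟨y, r, hr0, hr1, hr⟩ : ∃ (y : UnitAddCircle) (r : ℝ), 0 < r ∧ r ≤ 1 / 2 ∧
        μ.real (Metric.closedBall y r) < c * (2 * r) := by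
      by_contra hcon
      push Not at hcon
      exact hnot (dom_of_le hA D (le_of_balls fun y r h1 h2 => hcon y r h1 h2))
    obtain ⟨κ, μ', P, hκ, hNκ, hP, hPlim⟩ := exists_sub x N hN
    have hμ' : (μ' : Measure UnitAddCircle) = μ := by
      refine Pool.Agent.R202.ext_fourier fun m => ?_
      have h1 := tendsto_coeff hPlim m
      have h2 := (hlim m (τ m) (fun y => D.hτ m y)).comp hκ.tendsto_atTop
      rw [D.hμ]
      refine tendsto_nhds_unique h1 (h2.congr fun k => ?_)
      simp only [Function.comp_apply]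
      rw [avg_eq, hP]
    refine ⟨y, r, hr0, hr1, ?_⟩
    obtain ⟨w, hw1, hw2⟩ := exists_between hr
    have h1 := ProbabilityMeasure.limsup_measure_closed_le_of_tendsto hPlim
      (Metric.isClosed_closedBall (x := y) (ε := r))
    have h2 : limsup (fun k => (P k : Measure UnitAddCircle) (Metric.closedBall y r)) atTop <
        ENNReal.ofReal w := by
      refine h1.trans_lt ?_
      rw [hμ', ← ofReal_measureReal]
      exact (ENNReal.ofReal_lt_ofReal_iff (measureReal_nonneg.trans_lt hw1)).2 hw1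
    have h3 := eventually_lt_of_limsup_lt h2
    have h4 : ∃ᶠ M : ℕ in atTop, freq 2 3 M x y r ≤ w := by
      have h5 : ∀ᶠ k in atTop, freq 2 3 (N (κ k)) x y r ≤ w := by
        filter_upwards [h3] with k hk
        rw [← emp_ball, ← hP, measureReal_def]
        refine ENNReal.toReal_le_of_le_ofReal (measureReal_nonneg.trans hw1.le) hk.le
      exact (hN.comp hκ).tendsto_atTop.frequently h5.frequently
    refine lt_of_le_of_lt (liminf_le_of_frequently_le h4 ?_) hw2
    exact ⟨0, eventually_map.2 (Eventually.of_forall fun M => Pool.Agent.Y314.FD.freq_nonneg M x _ _)⟩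
  · rintro ⟨y, r, hr0, hr1, hr⟩
    obtain ⟨w, hw1, hw2⟩ := exists_between hr
    have hbd : IsCoboundedUnder (· ≥ ·) atTop (fun N : ℕ => freq 2 3 N x y r) :=
      IsBoundedUnder.isCoboundedUnder_ge ⟨1, eventually_map.2 (Eventually.of_forall fun M =>
        Pool.Agent.Y314.FD.freq_le_one le_rfl (by norm_num) (by norm_num) M x _ _)⟩
    have h1 := frequently_lt_of_liminf_lt hbd hw1
    obtain ⟨N, hN, hNw⟩ := extraction_of_frequently_atTop h1
    obtain ⟨κ, μ, P, hκ, hNκ, hP, hPlim⟩ := exists_sub x N hN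
    have hNt : Tendsto (fun k => N (κ k)) atTop atTop := (hN.comp hκ).tendsto_atTop
    obtain ⟨n2, n3⟩ := lim_mp hNκ hNt hP hPlim
    have hTS := ext_TS hs2 hs3 ht hG n2 n3
    refine ⟨ext G (μ : Measure UnitAddCircle), hTS, ⟨fun k => N (κ k), hN.comp hκ, ?_⟩, ?_⟩
    · intro m g hg
      rw [ext_trans n2 n3 (n := m) (k := 0) (g := g) (fun y => by rw [hg]; simp)]
      refine (tendsto_coeff hPlim m).congr fun k => ?_
      rw [avg_eq, hP]
    · intro hdom
      obtain ⟨τ, S6, μ', D⟩ := data_of hs2 hs3 ht hG hTS.1 hTS.2.1 hTS.2.2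
      have := D.prob
      obtain ⟨ρ, hρ, hsum⟩ := le_of_dom hA D hdom
      have hμ' : (μ : Measure UnitAddCircle) = μ' := by
        refine Pool.Agent.R202.ext_fourier fun m => ?_
        rw [D.hμ, ext_trans n2 n3 (n := m) (k := 0) (g := τ m) (fun y => by rw [D.hτ]; simp)]
      have h2 : ENNReal.ofReal (c * (2 * r)) ≤ (μ : Measure UnitAddCircle) (Metric.ball y r) := by
        rw [hμ', hsum, Measure.add_apply, Measure.smul_apply, smul_eq_mul]
        have h3 : (volume : Measure UnitAddCircle) (Metric.ball y r) = ENNReal.ofReal (2 * r) := by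
          rw [← measure_congr (AddCircle.closedBall_ae_eq_ball (x := y) (ε := r)),
            AddCircle.volume_closedBall, min_eq_right (by linarith)]
        rw [h3, ENNReal.ofReal_mul (NNReal.coe_nonneg c), ENNReal.ofReal_coe_nnreal]
        exact le_add_self
      have h4 := ProbabilityMeasure.le_liminf_measure_open_of_tendsto hPlim
        (Metric.isOpen_ball (x := y) (ε := r))
      have h5 : liminf (fun k => (P k : Measure UnitAddCircle) (Metric.ball y r)) atTop ≤
          ENNReal.ofReal w := by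
        refine liminf_le_of_frequently_le' (Frequently.of_forall fun k => ?_)
        rw [hP]
        refine (measure_mono Metric.ball_subset_closedBall).trans ?_
        have := emp_prob (hNκ k) x
        rw [← ofReal_measureReal, emp_ball]
        exact ENNReal.ofReal_le_ofReal (hNw _).le
      have h6 := h2.trans (h4.trans h5)
      have h7 : 0 < c * (2 * r) := by
        refine lt_of_le_of_lt ?_ hr
        refine le_liminf_of_le ?_ (Eventually.of_forall fun M =>
          Pool.Agent.Y314.FD.freq_nonneg M x y r)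
        exact hbd
      rw [ENNReal.ofReal_le_ofReal_iff' ] at h6
      rcases h6 with h6 | h6
      · linarith
      · linarith

end

end Pool.Agent.L7h48.TR
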