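import Pool.Agent.TH461.SST.Main
import Pool.Agent.N254.UD.Meas
import Pool.Agent.TH463.UQ.Trace
import Pool.Agent.TH654.FC.Growth
import Pool.Agent.H261R2.FU.Dir3

/-!
# Cesàro averages of the characters and the measures invariant under `×2`, `×3`
-/

set_option autoImplicit false

open MeasureTheory Filter Topology Finset
open scoped ComplexOrder ComplexConjugate

namespace Pool.Agent.L7h48.TR

/-- the Cesàro average of the characters `0, …, N - 1` -/
noncomputable def Dn (N : ℕ) (y : UnitAddCircle) : ℂ := (N : ℂ)⁻¹ * ∑ k ∈ range N, fourier (k : ℤ) y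

lemma Dn_cont (N : ℕ) : Continuous (Dn N) := by unfold Dn; fun_prop

lemma Dn_sub_one {N : ℕ} (hN : 1 ≤ N) (y : UnitAddCircle) :
    ‖Dn N y - 1‖ ≤ 2 * Real.pi * N * ‖y‖ := by
  have hN0 : (0 : ℝ) < N := by exact_mod_cast hN
  have hNc : (N : ℂ) ≠ 0 := by exact_mod_cast (by omega : N ≠ 0)
  have e : Dn N y - 1 = (N : ℂ)⁻¹ * ∑ k ∈ range N, (fourier (k : ℤ) y - 1) := by
    unfold Dn
    rw [sum_sub_distrib, mul_sub]
    simp only [sum_const, card_range, nsmul_eq_mul, mul_one]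
    rw [inv_mul_cancel₀ hNc]
  rw [e, norm_mul, norm_inv, Complex.norm_natCast]
  have h1 : ∀ k ∈ range N, ‖(fourier (k : ℤ) y : ℂ) - 1‖ ≤ 2 * Real.pi * N * ‖y‖ := by
    intro k hk
    have h2 := Pool.Agent.TH654.FC.fourier_sub_one_le ((k : ℤ) • y)
    have h3 : (fourier 1 ((k : ℤ) • y) : ℂ) = fourier (k : ℤ) y := by
      rw [fourier_apply, fourier_apply, one_smul]
    rw [h3] at h2
    refine h2.trans ?_
    have h4 : ‖(k : ℤ) • y‖ ≤ N * ‖y‖ := by
      rw [natCast_zsmul]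
      refine (norm_nsmul_le).trans ?_
      have : (k : ℝ) ≤ N := by exact_mod_cast (mem_range.1 hk).le
      gcongr
    calc 2 * Real.pi * ‖(k : ℤ) • y‖ ≤ 2 * Real.pi * (N * ‖y‖) := by
          have := Real.pi_pos
          gcongr
      _ = _ := by ring
  have h5 : ‖∑ k ∈ range N, ((fourier (k : ℤ) y : ℂ) - 1)‖ ≤ N * (2 * Real.pi * N * ‖y‖) := by
    refine (norm_sum_le _ _).trans ((sum_le_sum h1).trans ?_)
    simp
  calc (N : ℝ)⁻¹ * ‖∑ k ∈ range N, ((fourier (k : ℤ) y : ℂ) - 1)‖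
      ≤ (N : ℝ)⁻¹ * (N * (2 * Real.pi * N * ‖y‖)) := by gcongr
    _ = _ := by field_simp

lemma Dn_le_one (N : ℕ) (y : UnitAddCircle) : ‖Dn N y‖ ≤ 1 := by
  unfold Dn
  rw [norm_mul, norm_inv, Complex.norm_natCast]
  have h5 : ‖∑ k ∈ range N, (fourier (k : ℤ) y : ℂ)‖ ≤ N := by
    refine (norm_sum_le _ _).trans (le_of_eq ?_)
    rw [sum_congr rfl (fun (k : ℕ) _ => show ‖(fourier (k : ℤ) y : ℂ)‖ = 1 by
      rw [fourier_apply]; exact Circle.norm_coe _)]
    simp
  rcases Nat.eq_zero_or_pos N with h | h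
  · subst h; simp
  · have hN0 : (0 : ℝ) < N := by exact_mod_cast h
    calc (N : ℝ)⁻¹ * ‖∑ k ∈ range N, (fourier (k : ℤ) y : ℂ)‖ ≤ (N : ℝ)⁻¹ * N := by gcongr
      _ = 1 := inv_mul_cancel₀ hN0.ne'

lemma Dn_far {N : ℕ} (hN : 1 ≤ N) (y : UnitAddCircle) : 2 * N * ‖y‖ * ‖Dn N y‖ ≤ 1 := by
  have hN0 : (0 : ℝ) < N := by exact_mod_cast hN
  set z : ℂ := fourier 1 y with hz
  have hk : ∀ k : ℕ, (fourier (k : ℤ) y : ℂ) = z ^ k := by
    intro k
    rw [hz, fourier_apply, fourier_apply, one_smul, natCast_zsmul, AddCircle.toCircle_nsmul]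
    simp
  have h1 : (∑ k ∈ range N, (fourier (k : ℤ) y : ℂ)) * (z - 1) = z ^ N - 1 := by
    rw [← geom_sum_mul]
    congr 1
    exact sum_congr rfl fun k _ => hk k
  have hz1 : ‖z‖ = 1 := by rw [hz, fourier_apply]; exact Circle.norm_coe _
  have h2 : ‖∑ k ∈ range N, (fourier (k : ℤ) y : ℂ)‖ * ‖z - 1‖ ≤ 2 := by
    rw [← norm_mul, h1]
    refine (norm_sub_le _ _).trans ?_
    rw [norm_pow, hz1]
    norm_num
  have h3 : 4 * ‖y‖ ≤ ‖z - 1‖ := by
    have := Pool.Agent.H261R2.FU.four_norm_le 1 y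
    rwa [one_smul] at this
  have h4 : ‖∑ k ∈ range N, (fourier (k : ℤ) y : ℂ)‖ * (4 * ‖y‖) ≤ 2 :=
    (mul_le_mul_of_nonneg_left h3 (norm_nonneg _)).trans h2
  unfold Dn
  rw [norm_mul, norm_inv, Complex.norm_natCast]
  have h5 : 2 * (N : ℝ) * ‖y‖ * ((N : ℝ)⁻¹ * ‖∑ k ∈ range N, (fourier (k : ℤ) y : ℂ)‖) =
      2 * ‖y‖ * ‖∑ k ∈ range N, (fourier (k : ℤ) y : ℂ)‖ := by
    field_simp
  rw [h5]
  linarith

/-- the two averages are close outside the window -/
lemma near_or_far {e : ℝ} (he : 0 < e) (he1 : e ≤ 1) {N M : ℕ} (hN : 1 ≤ N) (hNM : N ≤ M)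
    (y : UnitAddCircle) (h : ‖y‖ < e / M ∨ 1 / (e * N) < ‖y‖) :
    ‖Dn N y - Dn M y‖ ^ 2 ≤ 16 * Real.pi ^ 2 * e := by
  have hN0 : (0 : ℝ) < N := by exact_mod_cast hN
  have hM0 : (0 : ℝ) < M := by exact_mod_cast (hN.trans hNM)
  have hNMR : (N : ℝ) ≤ M := by exact_mod_cast hNM
  have hpi := Real.pi_gt_three
  have key : ‖Dn N y - Dn M y‖ ≤ 4 * Real.pi * e := by
    rcases h with h | h
    · have h1 := Dn_sub_one hN y
      have h2 := Dn_sub_one (hN.trans hNM) y
      have h3 : ‖Dn N y - Dn M y‖ ≤ ‖Dn N y - 1‖ + ‖Dn M y - 1‖ := by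
        have : Dn N y - Dn M y = (Dn N y - 1) - (Dn M y - 1) := by ring
        rw [this]; exact norm_sub_le _ _
      rw [lt_div_iff₀ hM0] at h
      have h4 : 2 * Real.pi * N * ‖y‖ ≤ 2 * Real.pi * e := by
        have : (N : ℝ) * ‖y‖ ≤ M * ‖y‖ := by gcongr
        nlinarith [Real.pi_pos]
      have h5 : 2 * Real.pi * M * ‖y‖ ≤ 2 * Real.pi * e := by nlinarith [Real.pi_pos]
      linarith
    · have h1 := Dn_far hN y
      have h2 := Dn_far (hN.trans hNM) y
      rw [div_lt_iff₀ (by positivity)] at h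
      have hn1 := norm_nonneg (Dn N y)
      have hn2 := norm_nonneg (Dn M y)
      have hy0 : 0 < ‖y‖ := by
        by_contra h0
        have : ‖y‖ = 0 := le_antisymm (not_lt.1 h0) (norm_nonneg _)
        rw [this] at h; linarith
      have h3 : ‖Dn N y‖ ≤ e / 2 := by
        have h6 : 1 * ‖Dn N y‖ ≤ (‖y‖ * (e * N)) * ‖Dn N y‖ := by gcongr
        have h7 : ‖y‖ * (e * N) * ‖Dn N y‖ = (e / 2) * (2 * N * ‖y‖ * ‖Dn N y‖) := by ring
        have h8 : (e / 2) * (2 * N * ‖y‖ * ‖Dn N y‖) ≤ (e / 2) * 1 := by gcongr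
        linarith
      have h4 : ‖Dn M y‖ ≤ e / 2 := by
        have h5 : 1 ≤ ‖y‖ * (e * M) := by
          have : ‖y‖ * (e * N) ≤ ‖y‖ * (e * M) := by gcongr
          linarith
        have h6 : 1 * ‖Dn M y‖ ≤ (‖y‖ * (e * M)) * ‖Dn M y‖ := by gcongr
        have h7 : ‖y‖ * (e * M) * ‖Dn M y‖ = (e / 2) * (2 * M * ‖y‖ * ‖Dn M y‖) := by ring
        have h8 : (e / 2) * (2 * M * ‖y‖ * ‖Dn M y‖) ≤ (e / 2) * 1 := by gcongr
        linarith
      have h5 := norm_sub_le (Dn N y) (Dn M y)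
      nlinarith
  calc ‖Dn N y - Dn M y‖ ^ 2 ≤ (4 * Real.pi * e) ^ 2 := by gcongr
    _ = 16 * Real.pi ^ 2 * (e * e) := by ring
    _ ≤ 16 * Real.pi ^ 2 * (e * 1) := by gcongr
    _ = _ := by ring

/-- images under the multiplications -/
lemma mp_map {μ : Measure UnitAddCircle} {p : ℕ}
    (h : MeasurePreserving (fun x : UnitAddCircle => p • x) μ μ) (d : ℤ) :
    MeasurePreserving (fun x : UnitAddCircle => p • x) (μ.map fun x => d • x)
      (μ.map fun x => d • x) := by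
  have hd : Measurable fun x : UnitAddCircle => d • x := (continuous_zsmul d).measurable
  have hp : Measurable fun x : UnitAddCircle => p • x := (continuous_nsmul p).measurable
  refine ⟨hp, ?_⟩
  rw [Measure.map_map hp hd]
  have e : ((fun x : UnitAddCircle => p • x) ∘ fun x => d • x) =
      (fun x => d • x) ∘ fun x => p • x := by
    funext x
    exact smul_comm _ _ _
  rw [e, ← Measure.map_map hd hp, h.map_eq]

/-- **The Cesàro averages at `N` and at `M ≤ N ^ A` are close, uniformly in the measure**, also after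
a rotation by a torsion point of small order. -/
theorem slow : ∃ c : ℝ, 0 < c ∧ ∀ A ε : ℝ, 1 ≤ A → 0 < ε → ε ≤ 1 → ∃ N₀ : ℕ, 1 ≤ N₀ ∧
    ∀ μ : Measure UnitAddCircle, IsProbabilityMeasure μ →
      MeasurePreserving (fun x : UnitAddCircle => 2 • x) μ μ →
      MeasurePreserving (fun x : UnitAddCircle => 3 • x) μ μ →
      ∀ N M : ℕ, N₀ ≤ N → N ≤ M → (M : ℝ) ≤ (N : ℝ) ^ A →
      ∀ (k : ℕ) (θ : UnitAddCircle), 1 ≤ k → (k : ℝ) ≤ (N : ℝ) ^ (c * ε / A) → k • θ = 0 →
        ∫ x, ‖Dn N (x + θ) - Dn M (x + θ)‖ ^ 2 ∂μ ≤ ε := by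
  obtain ⟨c0, hc0, hmeas⟩ := Pool.Agent.N254.UD.measB (p := 2) (q := 3) le_rfl (by norm_num)
    (by norm_num)
  refine ⟨min (c0 / 64) (1 / 4), lt_min (by positivity) (by norm_num), fun A ε hA hε hε1 => ?_⟩
  set c : ℝ := min (c0 / 64) (1 / 4) with hc
  have hc1 : c ≤ c0 / 64 := min_le_left _ _
  have hc2 : c ≤ 1 / 4 := min_le_right _ _
  have hcpos : 0 < c := lt_min (by positivity) (by norm_num)
  have hA0 : 0 < A := by linarith
  set e : ℝ := min (1 / 2) (ε / (32 * Real.pi ^ 2)) with he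
  have hpi := Real.pi_pos
  have he0 : 0 < e := lt_min (by norm_num) (by positivity)
  have he12 : e ≤ 1 / 2 := min_le_left _ _
  have he1 : e ≤ 1 := by linarith
  have he2 : 16 * Real.pi ^ 2 * e ≤ ε / 2 := by
    have : e ≤ ε / (32 * Real.pi ^ 2) := min_le_right _ _
    rw [le_div_iff₀ (by positivity)] at this
    linarith
  obtain ⟨T₀, hT₀⟩ := hmeas (4 * A) (ε / 8) (by linarith) (by positivity)
  set L : ℝ := -Real.log e with hL
  have hL0 : 0 ≤ L := by rw [hL]; linarith [Real.log_nonpos he0.le he1]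
  refine ⟨⌈Real.exp (max (2 * T₀) (4 * L + 4))⌉₊ + 1, by omega,
    fun μ hμ h2 h3 N M hN hNM hM k θ hk1 hk hkθ => ?_⟩
  have hNR : Real.exp (max (2 * T₀) (4 * L + 4)) ≤ N := by
    have h4 := Nat.le_ceil (Real.exp (max (2 * T₀) (4 * L + 4)))
    have h5 : ((⌈Real.exp (max (2 * T₀) (4 * L + 4))⌉₊ + 1 : ℕ) : ℝ) ≤ N := by exact_mod_cast hN
    push_cast at h5
    linarith
  have hN1 : 1 ≤ N := by omega
  have hN0 : (0 : ℝ) < N := by exact_mod_cast hN1
  have hM0 : (0 : ℝ) < M := by exact_mod_cast (hN1.trans hNM)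
  have hk0 : (0 : ℝ) < k := by exact_mod_cast hk1
  have hlogN : max (2 * T₀) (4 * L + 4) ≤ Real.log N := by
    rw [Real.le_log_iff_exp_le hN0]; exact hNR
  have hlN1 : 2 * T₀ ≤ Real.log N := (le_max_left _ _).trans hlogN
  have hlN2 : 4 * L + 4 ≤ Real.log N := (le_max_right _ _).trans hlogN
  have hlogM : Real.log M ≤ A * Real.log N := by
    rw [← Real.log_rpow hN0]
    exact Real.log_le_log hM0 hM
  have hlogk : Real.log k ≤ c * ε / A * Real.log N := by
    rw [← Real.log_rpow hN0]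
    exact Real.log_le_log hk0 hk
  have hlogk0 : 0 ≤ Real.log k := Real.log_nonneg (by exact_mod_cast hk1)
  have hlogk1 : Real.log k ≤ 1 / 4 * Real.log N := by
    have h4 : c * ε / A ≤ 1 / 4 := by
      rw [div_le_iff₀ hA0]
      nlinarith
    exact hlogk.trans (mul_le_mul_of_nonneg_right h4 (by linarith))
  set T : ℝ := Real.log N - L - Real.log k with hT
  have hThalf : 1 / 2 * Real.log N ≤ T := by rw [hT]; linarith
  have hTT : T₀ ≤ T := by linarith
  have hex1 : Real.exp (-T) = k / (e * N) := by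
    have h4 : -T = Real.log k - (Real.log e + Real.log N) := by rw [hT, hL]; ring
    rw [h4, Real.exp_sub, Real.exp_add, Real.exp_log hN0, Real.exp_log he0, Real.exp_log hk0]
  have hex2 : Real.exp (-(4 * A * T)) ≤ e / M := by
    have h4 : e / M = Real.exp (Real.log e - Real.log M) := by
      rw [Real.exp_sub, Real.exp_log hM0, Real.exp_log he0]
    rw [h4]
    apply Real.exp_le_exp.2
    have h5 : Real.log e = -L := by rw [hL]; ring
    rw [h5]
    have h6 : 4 * A * (1 / 2 * Real.log N) ≤ 4 * A * T := by gcongr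
    have h7 : L ≤ A * Real.log N := by nlinarith
    nlinarith
  have hex3 : (k : ℝ) ≤ Real.exp (c0 * (ε / 8) / (4 * A) * T) := by
    rw [← Real.exp_log hk0]
    apply Real.exp_le_exp.2
    have h4 : c0 * (ε / 8) / (4 * A) * (1 / 2 * Real.log N) ≤ c0 * (ε / 8) / (4 * A) * T := by
      gcongr
    have h5 : c0 * (ε / 8) / (4 * A) * (1 / 2 * Real.log N) = c0 / 64 * ε / A * Real.log N := by
      field_simp
      ring
    have h6 : c * ε / A * Real.log N ≤ c0 / 64 * ε / A * Real.log N := by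
      have : 0 ≤ Real.log N := by linarith
      gcongr
    linarith
  -- the point is far from the window
  have hkN : (k : ℝ) / (e * N) ≤ 1 / 2 := by
    rw [← hex1]
    have h4 : Real.exp (-T) ≤ Real.exp (-1) := by
      apply Real.exp_le_exp.2
      linarith
    have h5 := Real.exp_neg_one_lt_d9
    linarith
  have hμE := hT₀ T hTT μ hμ h2 h3
  set E : Set UnitAddCircle := Pool.Agent.N254.UD.shell (c0 * (ε / 8) / (4 * A) * T)
    (Real.exp (-(4 * A * T))) (Real.exp (-T)) with hE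
  have hEm : MeasurableSet E := (Pool.Agent.N254.UD.shell_closed _ _ _).measurableSet
  have hcont : Continuous fun x : UnitAddCircle => ‖Dn N (x + θ) - Dn M (x + θ)‖ ^ 2 := by
    have := Dn_cont N
    have := Dn_cont M
    fun_prop
  have hle : ∀ x : UnitAddCircle, ‖Dn N (x + θ) - Dn M (x + θ)‖ ^ 2 ≤
      ε / 2 + E.indicator (fun _ => (4 : ℝ)) x := by
    intro x
    by_cases hx : x ∈ E
    · rw [Set.indicator_of_mem hx]
      have h4 := Dn_le_one N (x + θ)
      have h5 := Dn_le_one M (x + θ)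
      have h6 := norm_sub_le (Dn N (x + θ)) (Dn M (x + θ))
      have h7 := norm_nonneg (Dn N (x + θ) - Dn M (x + θ))
      nlinarith
    · rw [Set.indicator_of_notMem hx, add_zero]
      refine (near_or_far he0 he1 hN1 hNM (x + θ) ?_).trans he2
      by_contra hcon
      rw [not_or, not_lt, not_lt] at hcon
      obtain ⟨h4, h5⟩ := hcon
      apply hx
      have h6 : (k : ℝ) * ‖x + θ‖ ≤ k / (e * N) := by
        have h9 : (k : ℝ) / (e * N) = k * (1 / (e * N)) := by ring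
        rw [h9]
        exact mul_le_mul_of_nonneg_left h5 hk0.le
      have h7 : ‖k • x‖ = k * ‖x + θ‖ := by
        have h8 : k • x = k • (x + θ) := by rw [smul_add, hkθ, add_zero]
        rw [h8]
        exact Pool.Agent.TH654.FC.nsmul_norm_eq k (h6.trans hkN)
      refine ⟨k, hk1, hex3, ?_, ?_⟩
      · rw [h7]
        refine hex2.trans (h4.trans ?_)
        exact le_mul_of_one_le_left (norm_nonneg _) (by exact_mod_cast hk1)
      · rw [h7, hex1]
        exact h6
  calc ∫ x, ‖Dn N (x + θ) - Dn M (x + θ)‖ ^ 2 ∂μ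
      ≤ ∫ x, (ε / 2 + E.indicator (fun _ => (4 : ℝ)) x) ∂μ := by
        refine integral_mono ?_ ?_ hle
        · exact hcont.integrable_of_hasCompactSupport (HasCompactSupport.of_compactSpace _)
        · exact (integrable_const _).add ((integrable_const (4 : ℝ)).indicator hEm)
    _ = ε / 2 + 4 * μ.real E := by
        rw [integral_add (integrable_const _) ((integrable_const (4 : ℝ)).indicator hEm),
          integral_indicator hEm]
        simp [Measure.real, mul_comm]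
    _ ≤ ε / 2 + 4 * (ε / 8) := by gcongr
    _ = ε := by ring

end Pool.Agent.L7h48.TR
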