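import Pool.Agent.L7h48.TR.Slow

/-!
# Cesàro averages of the powers of a translation in the GNS space of a tracial state
-/

set_option autoImplicit false

open MeasureTheory Filter Topology Finset
open scoped ComplexOrder ComplexConjugate

namespace Pool.Agent.L7h48.TR

open Pool.Agent.TH654.FC Pool.Agent.W763.Tr Pool.Agent.TH463.UQ

variable {G : Subgroup (Equiv.Perm ℚ)} {τ : ℤ → G} {φ : G → ℂ} {S6 : G} {μ : Measure UnitAddCircle}

lemma fourier_smul (i m : ℤ) (x : UnitAddCircle) :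
    (fourier i (m • x) : ℂ) = fourier (m * i) x := by
  rw [fourier_apply, fourier_apply, smul_smul, mul_comm]

lemma fourier_mul_conj (a b : ℤ) (x : UnitAddCircle) :
    (fourier a x : ℂ) * conj (fourier b x : ℂ) = fourier (a - b) x := by
  rw [← fourier_neg, ← fourier_add, sub_eq_add_neg]

/-- the Gram matrix of the powers of a translation -/
lemma val_pow (D : Data G τ φ S6 μ) {g : G} {r : ℚ} (hg : ∀ x, (g : Equiv.Perm ℚ) x = x + r) :
    ∃ m : ℤ, ∀ i j : ℕ, φ ((g ^ j)⁻¹ * g ^ i) =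
      ∫ x, (fourier (i : ℤ) (m • x) : ℂ) * conj (fourier (j : ℤ) (m • x) : ℂ) ∂μ := by
  obtain ⟨m, k, hr⟩ := D.six hg
  refine ⟨m, fun i j => ?_⟩
  have hpow : ∀ (n : ℕ) x, ((g ^ n : G) : Equiv.Perm ℚ) x = x + n * r := by
    intro n
    induction n with
    | zero => intro x; simp
    | succ n ih =>
      intro x
      rw [pow_succ, Subgroup.coe_mul, Equiv.Perm.mul_apply, hg, ih]
      push_cast; ring
  have hij : ∀ x, (((g ^ j)⁻¹ * g ^ i : G) : Equiv.Perm ℚ) x = x + ((m * (i - j) : ℤ) : ℚ) / 6 ^ k := by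
    intro x
    rw [Subgroup.coe_mul, Equiv.Perm.mul_apply, Subgroup.coe_inv, Equiv.Perm.inv_eq_iff_eq,
      hpow, hpow, hr]
    push_cast; ring
  rw [phi_trans D.hτ D.hcl S6 D.hS6 _ _ k hij, ← D.hμ]
  refine integral_congr_ae (Eventually.of_forall fun x => ?_)
  simp only
  rw [fourier_smul, fourier_smul, fourier_mul_conj]
  congr 2
  ring

lemma int_cont {f : UnitAddCircle → ℂ} (hf : Continuous f) [IsFiniteMeasure μ] :
    Integrable f μ :=
  hf.integrable_of_hasCompactSupport (HasCompactSupport.of_compactSpace _)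

/-- the square of the norm of a linear combination of the powers of a translation -/
lemma gram (D : Data G τ φ S6 μ) {g : G} {r : ℚ} (hg : ∀ x, (g : Equiv.Perm ℚ) x = x + r) :
    ∃ m : ℤ, ∀ (t : Finset ℕ) (w : ℕ → ℂ),
      ∑ i ∈ t, ∑ j ∈ t, star (w j) * w i * φ ((g ^ j)⁻¹ * g ^ i) =
        ((∫ x, ‖∑ i ∈ t, w i * (fourier (i : ℤ) (m • x) : ℂ)‖ ^ 2 ∂μ : ℝ) : ℂ) := by
  obtain ⟨m, hm⟩ := val_pow D hg
  have := D.prob
  refine ⟨m, fun t w => ?_⟩
  have e1 : ∀ x : UnitAddCircle, ((‖∑ i ∈ t, w i * (fourier (i : ℤ) (m • x) : ℂ)‖ ^ 2 : ℝ) : ℂ) =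
      ∑ i ∈ t, ∑ j ∈ t, star (w j) * w i *
        ((fourier (i : ℤ) (m • x) : ℂ) * conj (fourier (j : ℤ) (m • x) : ℂ)) := by
    intro x
    rw [← Complex.normSq_eq_norm_sq, ← Complex.mul_conj, map_sum, sum_mul_sum]
    refine sum_congr rfl fun i _ => sum_congr rfl fun j _ => ?_
    rw [map_mul]
    simp only [RCLike.star_def]
    ring
  rw [← integral_complex_ofReal]
  simp_rw [e1]
  rw [integral_finsetSum]
  · refine sum_congr rfl fun i _ => ?_
    rw [integral_finsetSum]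
    · refine sum_congr rfl fun j _ => ?_
      rw [integral_const_mul, hm]
    · intro j _
      exact int_cont (by fun_prop)
  · intro i _
    exact int_cont (by fun_prop)

/-- the coefficients of the difference of the twisted averages -/
noncomputable def coef (z : ℂ) (N M i : ℕ) : ℂ := ((if i < N then (N : ℂ)⁻¹ else 0) - (M : ℂ)⁻¹) * z ^ i

lemma coef_sum {N M : ℕ} (hNM : N ≤ M) (θ y : UnitAddCircle) :
    ∑ i ∈ range M, coef (fourier 1 θ) N M i * (fourier (i : ℤ) y : ℂ) =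
      Dn N (y + θ) - Dn M (y + θ) := by
  have h1 : ∀ i : ℕ, (fourier 1 θ : ℂ) ^ i * (fourier (i : ℤ) y : ℂ) = fourier (i : ℤ) (y + θ) := by
    intro i
    rw [fourier_apply, fourier_apply, fourier_apply, one_smul, smul_add, AddCircle.toCircle_add,
      natCast_zsmul, natCast_zsmul, AddCircle.toCircle_nsmul θ]
    push_cast
    ring
  have h2 : ∀ i ∈ range M, coef (fourier 1 θ) N M i * (fourier (i : ℤ) y : ℂ) =
      (if i < N then (N : ℂ)⁻¹ * fourier (i : ℤ) (y + θ) else 0) -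
        (M : ℂ)⁻¹ * fourier (i : ℤ) (y + θ) := by
    intro i _
    unfold coef
    rw [mul_assoc, h1, sub_mul]
    congr 1
    split_ifs <;> simp
  rw [sum_congr rfl h2, sum_sub_distrib, ← mul_sum]
  unfold Dn
  congr 1
  rw [← sum_filter, mul_sum]
  congr 1
  ext i
  simp only [mem_filter, mem_range]
  omega

/-- a root of unity is the value of a character at a torsion point -/
lemma root {k : ℕ} (hk : 1 ≤ k) {z : ℂ} (hz : z ^ k = 1) :
    ∃ θ : UnitAddCircle, (fourier 1 θ : ℂ) = z ∧ k • θ = 0 := by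
  have hz1 : ‖z‖ = 1 := Complex.norm_eq_one_of_pow_eq_one hz (by omega)
  obtain ⟨θ, hθ⟩ := (AddCircle.homeomorphCircle (T := (1 : ℝ)) one_ne_zero).surjective
    ⟨z, mem_sphere_zero_iff_norm.2 hz1⟩
  rw [AddCircle.homeomorphCircle_apply] at hθ
  have h1 : (fourier 1 θ : ℂ) = z := by rw [fourier_apply, one_smul, hθ]
  refine ⟨θ, h1, ?_⟩
  apply AddCircle.injective_toCircle (T := (1 : ℝ)) one_ne_zero
  rw [AddCircle.toCircle_nsmul, AddCircle.toCircle_zero]
  apply Circle.ext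
  rw [Circle.coe_pow, Circle.coe_one, hθ]
  exact hz

/-- **Slow variation of the twisted Cesàro averages.** -/
theorem slow_tr' {s2 s3 t : Equiv.Perm ℚ} (hs2 : ∀ x, s2 x = 2 * x) (hs3 : ∀ x, s3 x = 3 * x)
    (ht : ∀ x, t x = x + 1) {G : Subgroup (Equiv.Perm ℚ)} (hG : G = Subgroup.closure {s2, s3, t})
    {c : ℝ} {A ε : ℝ} {N₀ : ℕ}
    (H : ∀ μ : Measure UnitAddCircle, IsProbabilityMeasure μ →
      MeasurePreserving (fun x : UnitAddCircle => 2 • x) μ μ →
      MeasurePreserving (fun x : UnitAddCircle => 3 • x) μ μ →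
      ∀ N M : ℕ, N₀ ≤ N → N ≤ M → (M : ℝ) ≤ (N : ℝ) ^ A →
      ∀ (k : ℕ) (θ : UnitAddCircle), 1 ≤ k → (k : ℝ) ≤ (N : ℝ) ^ (c * ε / A) → k • θ = 0 →
        ∫ x, ‖Dn N (x + θ) - Dn M (x + θ)‖ ^ 2 ∂μ ≤ ε)
    {φ : G → ℂ} (h1 : φ 1 = 1) (hcl : ∀ g h : G, φ (h * g * h⁻¹) = φ g) (hpd : PD φ)
    {g : G} {r : ℚ} (hg : ∀ x : ℚ, (g : Equiv.Perm ℚ) x = x + r)
    {N M : ℕ} (hN : N₀ ≤ N) (hNM : N ≤ M) (hM : (M : ℝ) ≤ (N : ℝ) ^ A)
    {k : ℕ} {z : ℂ} (hk : 1 ≤ k) (hkN : (k : ℝ) ≤ (N : ℝ) ^ (c * ε / A)) (hz : z ^ k = 1) :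
    ∃ s : ℝ, s ≤ ε ∧ ∑ i ∈ range M, ∑ j ∈ range M,
      star (coef z N M j) * coef z N M i * φ ((g ^ j)⁻¹ * g ^ i) = (s : ℂ) := by
  obtain ⟨τ, S6, μ, D⟩ := data_of hs2 hs3 ht hG h1 hcl hpd
  have := D.prob
  obtain ⟨m, hm⟩ := gram D hg
  obtain ⟨θ, rfl, hθ⟩ := root hk hz
  refine ⟨_, ?_, hm (range M) (coef (fourier 1 θ) N M)⟩
  have hd : Measurable fun x : UnitAddCircle => m • x := (continuous_zsmul m).measurable
  have hp : IsProbabilityMeasure (μ.map fun x => m • x) :=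
    Measure.isProbabilityMeasure_map hd.aemeasurable
  have h4 := H (μ.map fun x => m • x) hp (mp_map D.mp2 m) (mp_map D.mp3 m) N M hN hNM hM k θ hk hkN
    hθ
  rw [integral_map hd.aemeasurable] at h4
  · simp_rw [coef_sum hNM θ]
    exact h4
  · have := Dn_cont N
    have := Dn_cont M
    exact Continuous.aestronglyMeasurable (by fun_prop)

lemma sq_int {ν : Measure UnitAddCircle} [IsProbabilityMeasure ν] {f : UnitAddCircle → ℂ}
    (hf : Continuous f) : ‖∫ x, f x ∂ν‖ ^ 2 ≤ ∫ x, ‖f x‖ ^ 2 ∂ν := by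
  have h1 : ‖∫ x, f x ∂ν‖ ≤ ∫ x, ‖f x‖ ∂ν := norm_integral_le_integral_norm _
  set a : ℝ := ∫ x, ‖f x‖ ∂ν with ha
  have i1 : Integrable (fun x => ‖f x‖) ν :=
    hf.norm.integrable_of_hasCompactSupport (HasCompactSupport.of_compactSpace _)
  have i2 : Integrable (fun x => ‖f x‖ ^ 2) ν :=
    (hf.norm.pow 2).integrable_of_hasCompactSupport (HasCompactSupport.of_compactSpace _)
  have h2 : 0 ≤ ∫ x, (‖f x‖ - a) ^ 2 ∂ν := integral_nonneg fun x => sq_nonneg _
  have h3 : ∫ x, (‖f x‖ - a) ^ 2 ∂ν = ∫ x, ‖f x‖ ^ 2 ∂ν - a ^ 2 := by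
    have e : ∀ x, (‖f x‖ - a) ^ 2 = ‖f x‖ ^ 2 - 2 * a * ‖f x‖ + a ^ 2 := fun x => by ring
    have i3 : Integrable (fun x => ‖f x‖ ^ 2 - 2 * a * ‖f x‖) ν := i2.sub (i1.const_mul _)
    simp_rw [e]
    rw [integral_add i3 (integrable_const _), integral_sub i2
      (i1.const_mul _), integral_const_mul, ← ha, integral_const]
    simp
    ring
  have h4 : 0 ≤ ‖∫ x, f x ∂ν‖ := norm_nonneg _
  have h5 : ‖∫ x, f x ∂ν‖ ^ 2 ≤ a ^ 2 := pow_le_pow_left₀ h4 h1 2
  linarith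

/-- the law of the difference of two independent points -/
noncomputable def dif (μ : Measure UnitAddCircle) : Measure UnitAddCircle :=
  (μ.prod μ).map fun p => p.1 - p.2

lemma dif_mp [IsProbabilityMeasure μ] {p : ℕ}
    (h : MeasurePreserving (fun x : UnitAddCircle => p • x) μ μ) :
    MeasurePreserving (fun x : UnitAddCircle => p • x) (dif μ) (dif μ) := by
  have hs : Measurable fun p : UnitAddCircle × UnitAddCircle => p.1 - p.2 := by fun_prop
  have hp : Measurable fun x : UnitAddCircle => p • x := (continuous_nsmul p).measurable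
  have h2 : MeasurePreserving (Prod.map (fun x : UnitAddCircle => p • x) fun x => p • x)
      (μ.prod μ) (μ.prod μ) := h.prod h
  refine ⟨hp, ?_⟩
  unfold dif
  rw [Measure.map_map hp hs]
  have e : ((fun x : UnitAddCircle => p • x) ∘ fun p : UnitAddCircle × UnitAddCircle => p.1 - p.2) =
      (fun p : UnitAddCircle × UnitAddCircle => p.1 - p.2) ∘
        (Prod.map (fun x : UnitAddCircle => p • x) fun x => p • x) := by
    funext q
    exact smul_sub _ _ _
  rw [e, ← Measure.map_map hs h2.measurable, h2.map_eq]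

lemma dif_fourier [IsProbabilityMeasure μ] (n : ℤ) :
    ∫ x, (fourier n x : ℂ) ∂(dif μ) = ((‖∫ x, (fourier n x : ℂ) ∂μ‖ ^ 2 : ℝ) : ℂ) := by
  unfold dif
  rw [integral_map (by fun_prop) (Continuous.aestronglyMeasurable (by fun_prop))]
  have e : ∀ q : UnitAddCircle × UnitAddCircle, (fourier n (q.1 - q.2) : ℂ) =
      fourier n q.1 * conj (fourier n q.2 : ℂ) := by
    intro q
    rw [← fourier_neg, fourier_apply, fourier_apply, fourier_apply, smul_sub, sub_eq_add_neg,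
      AddCircle.toCircle_add, neg_smul]
    push_cast
    rfl
  simp_rw [e]
  rw [integral_prod_mul (fun x : UnitAddCircle => (fourier n x : ℂ))
    (fun x : UnitAddCircle => conj (fourier n x : ℂ)), integral_conj,
    Complex.mul_conj, Complex.normSq_eq_norm_sq]

/-- **Slow variation of the averages of `|φ (g ^ n)| ^ 2`.** -/
theorem slow_sq {s2 s3 t : Equiv.Perm ℚ} (hs2 : ∀ x, s2 x = 2 * x) (hs3 : ∀ x, s3 x = 3 * x)
    (ht : ∀ x, t x = x + 1) {G : Subgroup (Equiv.Perm ℚ)} (hG : G = Subgroup.closure {s2, s3, t})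
    {c : ℝ} {A ε : ℝ} {N₀ : ℕ}
    (H : ∀ μ : Measure UnitAddCircle, IsProbabilityMeasure μ →
      MeasurePreserving (fun x : UnitAddCircle => 2 • x) μ μ →
      MeasurePreserving (fun x : UnitAddCircle => 3 • x) μ μ →
      ∀ N M : ℕ, N₀ ≤ N → N ≤ M → (M : ℝ) ≤ (N : ℝ) ^ A →
      ∀ (k : ℕ) (θ : UnitAddCircle), 1 ≤ k → (k : ℝ) ≤ (N : ℝ) ^ (c * ε / A) → k • θ = 0 →
        ∫ x, ‖Dn N (x + θ) - Dn M (x + θ)‖ ^ 2 ∂μ ≤ ε)
    {φ : G → ℂ} (h1 : φ 1 = 1) (hcl : ∀ g h : G, φ (h * g * h⁻¹) = φ g) (hpd : PD φ)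
    {g : G} {r : ℚ} (hg : ∀ x : ℚ, (g : Equiv.Perm ℚ) x = x + r)
    {N M : ℕ} (hN : N₀ ≤ N) (hNM : N ≤ M) (hM : (M : ℝ) ≤ (N : ℝ) ^ A)
    {k : ℕ} {z : ℂ} (hk : 1 ≤ k) (hkN : (k : ℝ) ≤ (N : ℝ) ^ (c * ε / A)) (hz : z ^ k = 1) :
    ‖∑ i ∈ range M, coef z N M i * (‖φ (g ^ i)‖ : ℂ) ^ 2‖ ^ 2 ≤ ε := by
  obtain ⟨τ, S6, μ, D⟩ := data_of hs2 hs3 ht hG h1 hcl hpd
  have := D.prob
  obtain ⟨m, hm⟩ := D.pow hg
  obtain ⟨θ, rfl, hθ⟩ := root hk hz
  have hd : Measurable fun x : UnitAddCircle => m • x := (continuous_zsmul m).measurable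
  have hs : Measurable fun p : UnitAddCircle × UnitAddCircle => p.1 - p.2 := by fun_prop
  have hq : IsProbabilityMeasure (dif μ) := Measure.isProbabilityMeasure_map hs.aemeasurable
  have hp : IsProbabilityMeasure ((dif μ).map fun x => m • x) :=
    Measure.isProbabilityMeasure_map hd.aemeasurable
  have h4 := H ((dif μ).map fun x => m • x) hp (mp_map (dif_mp D.mp2) m) (mp_map (dif_mp D.mp3) m)
    N M hN hNM hM k θ hk hkN hθ
  refine le_trans ?_ h4
  have hc1 := Dn_cont N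
  have hc2 := Dn_cont M
  refine le_trans (le_of_eq ?_) (sq_int (by fun_prop))
  congr 2
  simp_rw [← coef_sum hNM θ]
  rw [integral_map hd.aemeasurable (Continuous.aestronglyMeasurable (by fun_prop)),
    integral_finsetSum]
  · refine sum_congr rfl fun i _ => ?_
    rw [integral_const_mul]
    simp_rw [fourier_smul]
    rw [dif_fourier, D.hμ, ← hm]
    push_cast
    rfl
  · intro i _
    exact int_cont (by fun_prop)

end Pool.Agent.L7h48.TR
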